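import Pool.Agent.H574R2.Q4.G2z

/-!
# Bounds of the coefficients of the linear forms (for any interval of nodes)
-/

open Polynomial Pool.Agent.H337R2 Pool.Agent.H574R2.Q4 Pool.Agent.H574R2.Q4.GN

namespace Pool.Agent.TH21.PD75

noncomputable section

set_option autoImplicit false

/-- the coefficients -/
lemma rho_le {n a b : ℕ} (hn : 30 ≤ n) (hb : b ≤ 36 * n - 72) (MX : ℝ)
    (hM : ∀ u : ℤ, |u| ≤ n → n * phi (100 * (u : ℝ) / n) + Lp n (Finset.range (36 * n - 72)) (100 * u) +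
      Lp n (Finset.Ico a b) (100 * u) ≤ MX) (i j : ℕ) :
    ∀ r ∈ Finset.Icc 1 76, |((rho n (PM n * EM n (lag (Finset.range (36 * n - 72)) (zq n) i *
      lag (Finset.Ico a b) (zq n) j)) r : ℚ) : ℝ)| ≤ Real.exp (MX + (7207 + Real.log G2K) * Real.log n) := by
  set Q : ℚ[X] := lag (Finset.range (36 * n - 72)) (zq n) i *
      lag (Finset.Ico a b) (zq n) j with hQ
  have hln := G2_ln1 hn
  have hln8 := G2_ln8 hn
  have hrho : ∀ r ∈ Finset.Icc 1 76, |((rho n (PM n * EM n Q) r : ℚ) : ℝ)| ≤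
      Real.exp (MX + (7207 + Real.log G2K) * Real.log n) := by
    intro r hr
    unfold rho
    rw [Rat.cast_sum]
    refine (Finset.abs_sum_le_sum_abs _ _).trans ?_
    have h2 : ∀ k ∈ sM n, |((pa (sM n) mM (PM n * EM n Q) k r : ℚ) : ℝ)| ≤
        Real.exp (MX + (7203 + Real.log G2K) * Real.log n) := by
      intro k hk
      have h4 := G2_one (a := a) (b := b) hn hk hr i j hb (G2_bd hn)
      rw [← hQ] at h4
      refine h4.trans (Real.exp_le_exp.2 ?_)
      obtain ⟨hk1, hk2⟩ := Finset.mem_Icc.1 hk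
      have h3 := hM ((3 * n : ℤ) - k) (by
        rw [abs_le]
        constructor <;> omega)
      linarith
    refine (Finset.sum_le_sum h2).trans ?_
    rw [Finset.sum_const, nsmul_eq_mul]
    have h3 : ((sM n).card : ℝ) ≤ Real.exp (4 * Real.log n) := by
      have h5 : (0 : ℝ) < 6 * n + 1 := by positivity
      have h6 : (6 * n + 1 : ℝ) ≤ Real.exp (4 * Real.log n) := by
        rw [← Real.exp_log h5]
        exact Real.exp_le_exp.2 hln8
      refine le_trans ?_ h6
      have h7 : (sM n).card ≤ 6 * n + 1 := by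
        rw [Nat.card_Icc]; omega
      exact_mod_cast h7
    calc ((sM n).card : ℝ) * Real.exp (MX + (7203 + Real.log G2K) * Real.log n) ≤
          Real.exp (4 * Real.log n) * Real.exp (MX + (7203 + Real.log G2K) * Real.log n) :=
          mul_le_mul_of_nonneg_right h3 (Real.exp_pos _).le
      _ = _ := by rw [← Real.exp_add]; congr 1; ring
  exact hrho

/-- the entries of the pole part -/
lemma BL_le {n a b : ℕ} (hn : 30 ≤ n) (β : ℕ → ℚ) (hb : b ≤ 36 * n - 72) (MY : ℝ)
    (hM : ∀ u : ℤ, |u| ≤ n → n * phi (100 * (u : ℝ) / n) + Lp n (Finset.range (36 * n - 72)) (100 * u) +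
      Lp n (Finset.Ico a b) (100 * u) ≤ MY) (i j : ℕ) :
    |((BL n β (lag (Finset.range (36 * n - 72)) (zq n) i * lag (Finset.Ico a b) (zq n) j) : ℚ) : ℝ)| ≤
      Real.exp (MY + (7207 + Real.log G2K) * Real.log n + Real.log (1 + ∑ r ∈ Finset.Icc 1 76, |(β r : ℝ)|)) := by
  set S : ℝ := ∑ r ∈ Finset.Icc 1 76, |(β r : ℝ)| with hS
  have hS0 : 0 ≤ S := Finset.sum_nonneg fun _ _ => abs_nonneg _
  have hrho := rho_le hn hb MY hM i j
  rw [BL_apply]
  set Q : ℚ[X] := lag (Finset.range (36 * n - 72)) (zq n) i * lag (Finset.Ico a b) (zq n) j with hQ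
  unfold xb
  rw [Rat.cast_sum]
  calc |∑ r ∈ Finset.Icc 1 76, ((rho n (PM n * EM n Q) r * β r : ℚ) : ℝ)|
      ≤ ∑ r ∈ Finset.Icc 1 76, |((rho n (PM n * EM n Q) r * β r : ℚ) : ℝ)| := Finset.abs_sum_le_sum_abs _ _
    _ ≤ ∑ r ∈ Finset.Icc 1 76, Real.exp (MY + (7207 + Real.log G2K) * Real.log n) * |(β r : ℝ)| := by
        apply Finset.sum_le_sum
        intro r hr
        rw [Rat.cast_mul, abs_mul]
        exact mul_le_mul_of_nonneg_right (hrho r hr) (abs_nonneg _)
    _ = Real.exp (MY + (7207 + Real.log G2K) * Real.log n) * S := by rw [← Finset.mul_sum]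
    _ ≤ Real.exp (MY + (7207 + Real.log G2K) * Real.log n) * (1 + S) :=
        mul_le_mul_of_nonneg_left (by linarith) (Real.exp_pos _).le
    _ = _ := by
        rw [Real.exp_add (MY + (7207 + Real.log G2K) * Real.log n), Real.exp_log (by linarith)]

end

end Pool.Agent.TH21.PD75
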