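import Pool.Agent.H574R2.Q4.B1

/-!
# The linear forms at perturbed zeta values

`sv n Q` is the value of the series; `AL n α Q + θ₁ BL n β Q + θ₂ BL n γ Q` differs from it by the coefficients
times the differences `α i + θ₁ β i + θ₂ γ i - ζ(i)`. The last part is `G1_entryN_of` of
`Pool/Agent/H574R2/Q4/G1.lean` for `sv`.
-/

open Polynomial Pool.Agent.H337R2 Pool.Agent.H574R2.Q4

namespace Pool.Agent.TH21.PD75

noncomputable section

set_option autoImplicit false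

/-- the indices `3, 5, ..., 75` -/
def I37 : Finset ℕ := (Finset.Icc 3 75).filter Odd

lemma mem_I37 {i : ℕ} : i ∈ I37 ↔ (3 ≤ i ∧ i ≤ 75) ∧ Odd i := by
  unfold I37
  rw [Finset.mem_filter, Finset.mem_Icc]

/-- the linear form in the zeta values -/
def sv (n : ℕ) (Q : ℚ[X]) : ℝ := ∑ i ∈ Finset.Icc 1 76,
        (((∑ k ∈ sM n, pa (sM n) mM (PM n * EM n Q) k i : ℚ) : ℝ) * (if i = 1 then 0 else zr i) -
          ((∑ k ∈ sM n, pa (sM n) mM (PM n * EM n Q) k i * hs i (k - 2 * n) : ℚ) : ℝ))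

theorem sv_hasSum {n : ℕ} (hn : 10 ≤ n) (Q : ℚ[X]) (hQ : Q.natDegree ≤ 48 * n) :
    HasSum (fun t : ℕ => wv n (3 * n + 1 + t) * ((Q.eval (((3 * n + 1 + t : ℕ) : ℚ) ^ 2) : ℚ) : ℝ)) (sv n Q) := by
  have hd := B1_deg hn Q hQ
  have h1 := Pool.Agent.H574R2.D3.B1_form (sM n) mM (PM n * EM n Q) hd (2 * n) 76
    (fun k hk => (Finset.mem_Icc.1 hk).1) (fun k _ => le_rfl) (by
      intro m hm
      have : (ZM n).eval (-(m : ℚ)) = 0 := by
        unfold ZM
        rw [Polynomial.eval_mul, Polynomial.eval_prod,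
          Finset.prod_eq_zero (Finset.mem_range.2 hm) (by simp), zero_mul]
      unfold PM
      rw [Polynomial.eval_mul, Polynomial.eval_mul, this, mul_zero, zero_mul])
  have h2 : (fun t : ℕ => wv n (3 * n + 1 + t) * ((Q.eval (((3 * n + 1 + t : ℕ) : ℚ) ^ 2) : ℚ) : ℝ)) =
      fun t : ℕ => (((PM n * EM n Q).eval ((t : ℚ) + 1) / (QQ (sM n) mM).eval ((t : ℚ) + 1) : ℚ) : ℝ) := by
    funext t
    rw [B1_val]
  rw [h2]
  exact h1

theorem rho_one {n : ℕ} (hn : 10 ≤ n) (Q : ℚ[X]) (hQ : Q.natDegree ≤ 48 * n) : rho n (PM n * EM n Q) 1 = 0 :=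
  residue_sum (sM n) mM (PM n * EM n Q) (B1_deg hn Q hQ)

theorem rho_even (n : ℕ) (Q : ℚ[X]) {i : ℕ} (hi : Even i) (hi1 : 1 ≤ i) : rho n (PM n * EM n Q) i = 0 :=
  even_vanish (sM n) mM (PM n * EM n Q) (6 * n)
    (fun k hk => by
      rw [Finset.mem_Icc] at hk ⊢
      omega) (fun k hk => rfl)
    (B1_P_comp n Q) (by
      rw [Finset.sum_const, smul_eq_mul]
      exact (by decide : Even 76).mul_left _) hi hi1

/-- the perturbed form -/
theorem sv_add {n : ℕ} (hn : 10 ≤ n) (α β γ : ℕ → ℚ) (θ₁ θ₂ : ℝ) (Q : ℚ[X]) (hQ : Q.natDegree ≤ 48 * n) :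
    ((AL n α Q : ℚ) : ℝ) + θ₁ * ((BL n β Q : ℚ) : ℝ) + θ₂ * ((BL n γ Q : ℚ) : ℝ) = sv n Q +
      ∑ i ∈ I37, ((rho n (PM n * EM n Q) i : ℚ) : ℝ) *
        ((α i : ℝ) + θ₁ * (β i : ℝ) + θ₂ * (γ i : ℝ) - zr i) := by
  have h1 : ((AL n α Q : ℚ) : ℝ) + θ₁ * ((BL n β Q : ℚ) : ℝ) + θ₂ * ((BL n γ Q : ℚ) : ℝ) - sv n Q =
      ∑ i ∈ Finset.Icc 1 76, ((rho n (PM n * EM n Q) i : ℚ) : ℝ) *
        ((α i : ℝ) + θ₁ * (β i : ℝ) + θ₂ * (γ i : ℝ) - (if i = 1 then 0 else zr i)) := by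
    rw [AL_apply, BL_apply, BL_apply]
    unfold xa xb sv rho
    rw [Rat.cast_sum, Rat.cast_sum, Rat.cast_sum, Finset.mul_sum, Finset.mul_sum, ← Finset.sum_add_distrib,
      ← Finset.sum_add_distrib, ← Finset.sum_sub_distrib]
    apply Finset.sum_congr rfl
    intro i _
    push_cast
    ring
  have h2 : ∑ i ∈ I37, ((rho n (PM n * EM n Q) i : ℚ) : ℝ) *
        ((α i : ℝ) + θ₁ * (β i : ℝ) + θ₂ * (γ i : ℝ) - zr i) =
      ∑ i ∈ Finset.Icc 1 76, ((rho n (PM n * EM n Q) i : ℚ) : ℝ) *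
        ((α i : ℝ) + θ₁ * (β i : ℝ) + θ₂ * (γ i : ℝ) - (if i = 1 then 0 else zr i)) := by
    have e0 : ∑ i ∈ I37, ((rho n (PM n * EM n Q) i : ℚ) : ℝ) *
        ((α i : ℝ) + θ₁ * (β i : ℝ) + θ₂ * (γ i : ℝ) - zr i) =
      ∑ i ∈ I37, ((rho n (PM n * EM n Q) i : ℚ) : ℝ) *
        ((α i : ℝ) + θ₁ * (β i : ℝ) + θ₂ * (γ i : ℝ) - (if i = 1 then 0 else zr i)) := by
      apply Finset.sum_congr rfl
      intro i hi
      rw [mem_I37] at hi
      rw [if_neg (by omega)]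
    rw [e0]
    apply Finset.sum_subset
    · intro i hi
      rw [mem_I37] at hi
      rw [Finset.mem_Icc]
      omega
    · intro i hi hi2
      rw [mem_I37] at hi2
      rw [Finset.mem_Icc] at hi
      have h3 : i = 1 ∨ (Even i ∧ 1 ≤ i) := by
        rcases Nat.even_or_odd i with h | h
        · exact Or.inr ⟨h, hi.1⟩
        · left
          obtain ⟨k, hk⟩ := h
          by_contra hne
          apply hi2
          exact ⟨by omega, ⟨k, hk⟩⟩
      have h4 : rho n (PM n * EM n Q) i = 0 := by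
        rcases h3 with rfl | h3
        · exact rho_one hn Q hQ
        · exact rho_even n Q h3.1 h3.2
      rw [h4]
      simp
  rw [h2, ← h1]
  ring

theorem g1_wv_nonneg (n v : ℕ) : 0 ≤ wv n v := by
  unfold wv
  positivity

theorem g1_nd {n k : ℕ} (hk : k < 9 * n - 1) : nd n k = 100 * (3 * n + 1 + k) := by
  unfold nd
  rw [if_pos hk]

theorem g1_bb (g : ℕ) : 0 ≤ bb g := by
  unfold bb
  split <;> norm_num

theorem g1_nd_nonneg (n k : ℕ) : 0 ≤ nd n k := by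
  unfold nd
  split_ifs
  · positivity
  · have := g1_bb (k / (3 * n - 6))
    positivity
  · have := g1_bb (k / (3 * n - 6))
    rw [add_zero]
    positivity

theorem g1_eval_lag (n : ℕ) (s : Finset ℕ) (i v : ℕ) :
    (((lag s (zq n) i).eval ((v : ℚ) ^ 2) : ℚ) : ℝ) =
      ∏ k ∈ s.erase i, ((((100 * v - nd n k : ℤ) : ℝ) / 100) * (((100 * v + nd n k : ℤ) : ℝ) / 100)) := by
  unfold lag Pool.Agent.LZ.lag
  rw [Polynomial.eval_prod]
  push_cast
  apply Finset.prod_congr rfl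
  intro k _
  simp only [eval_sub, eval_X, eval_C, zq]
  push_cast
  ring

theorem g1_deg_lag (n : ℕ) (s : Finset ℕ) (i : ℕ) :
    (lag s (zq n) i).natDegree ≤ (s.erase i).card := by
  unfold lag Pool.Agent.LZ.lag
  refine (Polynomial.natDegree_prod_le _ _).trans ?_
  refine (Finset.sum_le_sum (g := fun _ => 1) fun k _ => ?_).trans ?_
  · simp
  · simp

theorem g1_zero (n : ℕ) (s : Finset ℕ) (i : ℕ) (u : ℤ) (k : ℕ) (hk : k ∈ s) (hki : k ≠ i)
    (h : u - nd n k = 0) :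
    ∏ k ∈ s.erase i, ((((u - nd n k : ℤ) : ℝ) / 100) * (((u + nd n k : ℤ) : ℝ) / 100)) = 0 := by
  apply Finset.prod_eq_zero (Finset.mem_erase.mpr ⟨hki, hk⟩)
  rw [h]; simp

theorem g1_pos (n : ℕ) (u : ℤ) (hu : 100 ≤ u) (k : ℕ) :
    1 ≤ (((u + nd n k : ℤ) : ℝ) / 100) := by
  have h1 := g1_nd_nonneg n k
  have h2 : (100 : ℤ) ≤ u + nd n k := by omega
  have h3 : (100 : ℝ) ≤ ((u + nd n k : ℤ) : ℝ) := by exact_mod_cast h2
  rw [le_div_iff₀ (by norm_num)]
  linarith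

theorem g1_prod (n : ℕ) (s : Finset ℕ) (i : ℕ) (hi : i ∈ s) (u : ℤ) (hu : 100 ≤ u)
    (h : ∀ k ∈ s.erase i, u - nd n k ≠ 0) :
    |∏ k ∈ s.erase i, ((((u - nd n k : ℤ) : ℝ) / 100) * (((u + nd n k : ℤ) : ℝ) / 100))| =
      Real.exp (Lp n s u) * (Real.exp (-Real.log (((u - nd n i : ℤ) : ℝ) / 100)) *
        Real.exp (-Real.log (((u + nd n i : ℤ) : ℝ) / 100))) := by
  rw [← Real.exp_add, ← Real.exp_add, Finset.abs_prod]
  unfold Lp
  rw [← Finset.sum_erase_add _ _ hi]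
  have e1 : ∑ x ∈ s.erase i, (Real.log (((u - nd n x : ℤ) : ℝ) / 100) +
      Real.log (((u + nd n x : ℤ) : ℝ) / 100)) +
      (Real.log (((u - nd n i : ℤ) : ℝ) / 100) + Real.log (((u + nd n i : ℤ) : ℝ) / 100)) +
      (-Real.log (((u - nd n i : ℤ) : ℝ) / 100) + -Real.log (((u + nd n i : ℤ) : ℝ) / 100)) =
      ∑ x ∈ s.erase i, (Real.log (((u - nd n x : ℤ) : ℝ) / 100) +
      Real.log (((u + nd n x : ℤ) : ℝ) / 100)) := by ring
  rw [e1, Real.exp_sum]
  apply Finset.prod_congr rfl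
  intro k hk
  have h1 : (((u - nd n k : ℤ) : ℝ) / 100) ≠ 0 := by
    have := h k hk
    have h2 : ((u - nd n k : ℤ) : ℝ) ≠ 0 := by exact_mod_cast this
    exact div_ne_zero h2 (by norm_num)
  have h2 : (((u + nd n k : ℤ) : ℝ) / 100) ≠ 0 := by
    have := g1_pos n u hu k
    linarith
  rw [abs_mul, Real.exp_add, Real.exp_log_eq_abs h1, Real.exp_log_eq_abs h2]

theorem g1_exp_le_one (n : ℕ) (u : ℤ) (hu : 100 ≤ u) (k : ℕ) :
    Real.exp (-Real.log (((u + nd n k : ℤ) : ℝ) / 100)) ≤ 1 := by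
  rw [Real.exp_le_one_iff]
  have := Real.log_nonneg (g1_pos n u hu k)
  linarith

theorem g1_exp_le_100 (n : ℕ) (u : ℤ) (k : ℕ) :
    Real.exp (-Real.log (((u - nd n k : ℤ) : ℝ) / 100)) ≤ 100 := by
  by_cases h0 : u - nd n k = 0
  · rw [h0]; simp
  · have h2 : ((u - nd n k : ℤ) : ℝ) ≠ 0 := by exact_mod_cast h0
    have h1 : (((u - nd n k : ℤ) : ℝ) / 100) ≠ 0 := div_ne_zero h2 (by norm_num)
    rw [Real.exp_neg, Real.exp_log_eq_abs h1, inv_le_comm₀ (abs_pos.mpr h1) (by norm_num),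
      abs_div]
    have h3 : (1 : ℤ) ≤ |u - nd n k| := Int.one_le_abs h0
    have h4 : (1 : ℝ) ≤ |((u - nd n k : ℤ) : ℝ)| := by
      rw [← Int.cast_abs]
      exact_mod_cast h3
    have h5 : |(100 : ℝ)| = 100 := by norm_num
    rw [h5, inv_eq_one_div]
    exact div_le_div_of_nonneg_right h4 (by norm_num)

theorem g1_le (n : ℕ) (s : Finset ℕ) (i : ℕ) (hi : i ∈ s) (u : ℤ) (hu : 100 ≤ u) :
    |∏ k ∈ s.erase i, ((((u - nd n k : ℤ) : ℝ) / 100) * (((u + nd n k : ℤ) : ℝ) / 100))| ≤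
      100 * Real.exp (Lp n s u) := by
  by_cases h : ∀ k ∈ s.erase i, u - nd n k ≠ 0
  · rw [g1_prod n s i hi u hu h, mul_comm]
    apply mul_le_mul_of_nonneg_right _ (Real.exp_pos _).le
    have a1 := g1_exp_le_100 n u i
    have a2 := g1_exp_le_one n u hu i
    calc _ ≤ (100 : ℝ) * 1 := mul_le_mul a1 a2 (Real.exp_pos _).le (by norm_num)
      _ = 100 := by norm_num
  · push Not at h
    obtain ⟨k, hk, hk0⟩ := h
    rw [Finset.mem_erase] at hk
    rw [g1_zero n s i u k hk.2 hk.1 hk0, abs_zero]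
    positivity

theorem g1_le_one (n : ℕ) (s : Finset ℕ) (i : ℕ) (hi : i ∈ s) (u : ℤ) (hu : 100 ≤ u)
    (h0 : u - nd n i = 0) :
    |∏ k ∈ s.erase i, ((((u - nd n k : ℤ) : ℝ) / 100) * (((u + nd n k : ℤ) : ℝ) / 100))| ≤
      Real.exp (Lp n s u) := by
  by_cases h : ∀ k ∈ s.erase i, u - nd n k ≠ 0
  · rw [g1_prod n s i hi u hu h, h0]
    have a2 := g1_exp_le_one n u hu i
    simp only [Int.cast_zero, zero_div, Real.log_zero, neg_zero, Real.exp_zero, one_mul]
    exact mul_le_of_le_one_right (Real.exp_pos _).le a2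
  · push Not at h
    obtain ⟨k, hk, hk0⟩ := h
    rw [Finset.mem_erase] at hk
    rw [g1_zero n s i u k hk.2 hk.1 hk0, abs_zero]
    positivity

theorem g1_hasSum :
    HasSum (fun t : ℕ => 1 / ((t : ℝ) + 90) - 1 / ((t : ℝ) + 91)) (1 / 90) := by
  rw [hasSum_iff_tendsto_nat_of_nonneg]
  · have e : ∀ N : ℕ, ∑ t ∈ Finset.range N, (1 / ((t : ℝ) + 90) - 1 / ((t : ℝ) + 91)) =
        1 / 90 - 1 / ((N : ℝ) + 90) := by
      intro N
      induction N with
      | zero => norm_num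
      | succ N ih =>
        rw [Finset.sum_range_succ, ih]
        push_cast
        ring
    simp only [e]
    have h1 : Filter.Tendsto (fun N : ℕ => 1 / ((N : ℝ) + 90)) Filter.atTop (nhds 0) := by
      have h2 : Filter.Tendsto (fun N : ℕ => ((N : ℝ) + 90)) Filter.atTop Filter.atTop :=
        Filter.tendsto_atTop_add_const_right _ _ tendsto_natCast_atTop_atTop
      simp only [one_div]
      exact h2.inv_tendsto_atTop
    simpa using (tendsto_const_nhds (x := (1 / 90 : ℝ))).sub h1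
  · intro t
    have h1 : (0 : ℝ) ≤ (t : ℝ) := by positivity
    have h2 : 1 / ((t : ℝ) + 91) ≤ 1 / ((t : ℝ) + 90) := by
      apply one_div_le_one_div_of_le <;> linarith
    linarith

theorem g1_cmp (t : ℕ) (v : ℝ) (hv : (t : ℝ) + 91 ≤ v) :
    1 / v ^ 2 ≤ 1 / ((t : ℝ) + 90) - 1 / ((t : ℝ) + 91) := by
  have h1 : (0 : ℝ) ≤ (t : ℝ) := by positivity
  have h2 : 1 / ((t : ℝ) + 90) - 1 / ((t : ℝ) + 91) = 1 / (((t : ℝ) + 90) * ((t : ℝ) + 91)) := by
    have h3 : (t : ℝ) + 90 ≠ 0 := by linarith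
    have h4 : (t : ℝ) + 91 ≠ 0 := by linarith
    field_simp
    ring
  rw [h2]
  apply one_div_le_one_div_of_le
  · positivity
  · nlinarith

/-- entries of the zeta part -/
theorem sv_entry {n : ℕ} (hn : 30 ≤ n) (MM : ℝ) (hM : 0 ≤ MM)
    (hsup : ∀ v : ℕ, 12 * n ≤ v →
      wv n v * Real.exp (Lp n (Finset.range (36 * n - 72)) (100 * v) + Lp n (Finset.range (12 * n - 24)) (100 * v)) ≤
        MM / (v : ℝ) ^ 2)
    (i j : ℕ) (hi : i < 36 * n - 72) (hj : j < 12 * n - 24) :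
    |sv n (lag (Finset.range (36 * n - 72)) (zq n) i * lag (Finset.range (12 * n - 24)) (zq n) j)| ≤
    (if j < 9 * n - 1 then wv n (3 * n + 1 + j) *
      Real.exp (Lp n (Finset.range (36 * n - 72)) (100 * (3 * n + 1 + j)) +
        Lp n (Finset.range (12 * n - 24)) (100 * (3 * n + 1 + j))) else 0) + 1000 * MM := by
  classical
  set Q : ℚ[X] := lag (Finset.range (36 * n - 72)) (zq n) i * lag (Finset.range (12 * n - 24)) (zq n) j
    with hQ
  have hi' : i ∈ Finset.range (36 * n - 72) := Finset.mem_range.mpr hi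
  have hj' : j ∈ Finset.range (12 * n - 24) := Finset.mem_range.mpr hj
  have hdeg : Q.natDegree ≤ 48 * n := by
    refine (Polynomial.natDegree_mul_le).trans ?_
    have h1 := g1_deg_lag n (Finset.range (36 * n - 72)) i
    have h2 := g1_deg_lag n (Finset.range (12 * n - 24)) j
    rw [Finset.card_erase_of_mem hi', Finset.card_range] at h1
    rw [Finset.card_erase_of_mem hj', Finset.card_range] at h2
    omega
  have hS := sv_hasSum (by omega) Q hdeg
  set T : ℝ := (if j < 9 * n - 1 then wv n (3 * n + 1 + j) *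
      Real.exp (Lp n (Finset.range (36 * n - 72)) (100 * (3 * n + 1 + j)) +
        Lp n (Finset.range (12 * n - 24)) (100 * (3 * n + 1 + j))) else 0)
    with hT
  have hT0 : 0 ≤ T := by
    rw [hT]
    split_ifs
    · exact mul_nonneg (g1_wv_nonneg _ _) (Real.exp_pos _).le
    · exact le_rfl
  have hG : HasSum (fun t : ℕ => (if t = j then T else 0) +
      10000 * MM * (1 / ((t : ℝ) + 90) - 1 / ((t : ℝ) + 91)))
      (T + 10000 * MM * (1 / 90)) :=
    (hasSum_ite_eq j T).add (g1_hasSum.mul_left (10000 * MM))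
  have hb : ∀ t : ℕ, ‖wv n (3 * n + 1 + t) *
      ((Q.eval (((3 * n + 1 + t : ℕ) : ℚ) ^ 2) : ℚ) : ℝ)‖ ≤
      (if t = j then T else 0) + 10000 * MM * (1 / ((t : ℝ) + 90) - 1 / ((t : ℝ) + 91)) := by
    intro t
    have hev : ((Q.eval (((3 * n + 1 + t : ℕ) : ℚ) ^ 2) : ℚ) : ℝ) =
        (∏ k ∈ (Finset.range (36 * n - 72)).erase i,
          ((((100 * (3 * n + 1 + t : ℕ) - nd n k : ℤ) : ℝ) / 100) *
            (((100 * (3 * n + 1 + t : ℕ) + nd n k : ℤ) : ℝ) / 100))) *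
        (∏ k ∈ (Finset.range (12 * n - 24)).erase j,
          ((((100 * (3 * n + 1 + t : ℕ) - nd n k : ℤ) : ℝ) / 100) *
            (((100 * (3 * n + 1 + t : ℕ) + nd n k : ℤ) : ℝ) / 100))) := by
      rw [hQ, Polynomial.eval_mul, Rat.cast_mul, g1_eval_lag, g1_eval_lag]
    have hW := g1_wv_nonneg n (3 * n + 1 + t)
    have hcmp : 1 / (((3 * n + 1 + t : ℕ) : ℝ)) ^ 2 ≤
        1 / ((t : ℝ) + 90) - 1 / ((t : ℝ) + 91) := by
      apply g1_cmp
      push_cast
      have : (30 : ℝ) ≤ (n : ℝ) := by exact_mod_cast hn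
      linarith
    have hpos1 : 0 ≤ 1 / ((t : ℝ) + 90) - 1 / ((t : ℝ) + 91) := le_trans (by positivity) hcmp
    have hpos2 : 0 ≤ 10000 * MM * (1 / ((t : ℝ) + 90) - 1 / ((t : ℝ) + 91)) := by positivity
    have hu : (100 : ℤ) ≤ 100 * ((3 * n + 1 + t : ℕ) : ℤ) := by
      push_cast
      omega
    rw [Real.norm_eq_abs, hev, abs_mul, abs_of_nonneg hW, abs_mul]
    rcases Nat.lt_or_ge t (9 * n - 1) with ht | ht
    · have h0 : (100 * ((3 * n + 1 + t : ℕ) : ℤ)) - nd n t = 0 := by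
        rw [g1_nd ht]
        push_cast
        ring
      have ht14 : t ∈ Finset.range (36 * n - 72) := Finset.mem_range.mpr (by omega)
      have ht7 : t ∈ Finset.range (12 * n - 24) := Finset.mem_range.mpr (by omega)
      by_cases hti : t = i
      · by_cases htj : t = j
        · subst hti
          subst htj
          rw [if_pos rfl, hT, if_pos ht]
          have a1 := g1_le_one n _ t hi' (100 * ((3 * n + 1 + t : ℕ) : ℤ)) hu h0
          have a2 := g1_le_one n _ t hj' (100 * ((3 * n + 1 + t : ℕ) : ℤ)) hu h0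
          have a3 := mul_le_mul a1 a2 (abs_nonneg _) (Real.exp_pos _).le
          rw [← Real.exp_add] at a3
          have a4 := mul_le_mul_of_nonneg_left a3 hW
          have e3 : (100 * ((3 * n + 1 + t : ℕ) : ℤ)) = 100 * (3 * (n : ℤ) + 1 + (t : ℤ)) := by
            push_cast
            ring
          rw [e3] at a4 ⊢
          linarith
        · rw [g1_zero n _ j (100 * ((3 * n + 1 + t : ℕ) : ℤ)) t ht7 htj h0, abs_zero, mul_zero,
            mul_zero]
          rw [if_neg htj]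
          linarith
      · rw [g1_zero n _ i (100 * ((3 * n + 1 + t : ℕ) : ℤ)) t ht14 hti h0, abs_zero, zero_mul,
          mul_zero]
        split_ifs <;> linarith
    · have a1 := g1_le n _ i hi' (100 * ((3 * n + 1 + t : ℕ) : ℤ)) hu
      have a2 := g1_le n _ j hj' (100 * ((3 * n + 1 + t : ℕ) : ℤ)) hu
      have a3 := mul_le_mul a1 a2 (abs_nonneg _) (by positivity)
      have a4 := mul_le_mul_of_nonneg_left a3 hW
      have a5 := hsup (3 * n + 1 + t) (by omega)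
      rw [Real.exp_add] at a5
      have a8 : MM / (((3 * n + 1 + t : ℕ) : ℝ)) ^ 2 ≤
          MM * (1 / ((t : ℝ) + 90) - 1 / ((t : ℝ) + 91)) := by
        have := mul_le_mul_of_nonneg_left hcmp hM
        rw [mul_one_div] at this
        exact this
      have a6 : wv n (3 * n + 1 + t) *
          (100 * Real.exp (Lp n (Finset.range (36 * n - 72)) (100 * ((3 * n + 1 + t : ℕ) : ℤ))) *
          (100 * Real.exp (Lp n (Finset.range (12 * n - 24)) (100 * ((3 * n + 1 + t : ℕ) : ℤ))))) =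
          10000 * (wv n (3 * n + 1 + t) *
          (Real.exp (Lp n (Finset.range (36 * n - 72)) (100 * ((3 * n + 1 + t : ℕ) : ℤ))) *
            Real.exp (Lp n (Finset.range (12 * n - 24)) (100 * ((3 * n + 1 + t : ℕ) : ℤ))))) := by ring
      rw [a6] at a4
      have a7 : 10000 * MM * (1 / ((t : ℝ) + 90) - 1 / ((t : ℝ) + 91)) =
          10000 * (MM * (1 / ((t : ℝ) + 90) - 1 / ((t : ℝ) + 91))) := by ring
      rw [a7]
      have a9 := a5.trans a8
      split_ifs <;> linarith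
  have hfin := hS.norm_le_of_bounded hG hb
  rw [Real.norm_eq_abs] at hfin
  refine hfin.trans ?_
  linarith


end

end Pool.Agent.TH21.PD75
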