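import Pool.Agent.TH21.PD75.FX
import Pool.Agent.TH21.PD75.RH
import Pool.Agent.TH21.PD75.SV
import Pool.Agent.H574R2.Q4.Z

/-!
# The archimedean part at perturbed zeta values

The proof of `arch` is that of `A_main_of` in `Pool/Agent/H574R2/Q4/AM.lean`, with the additional error of the
perturbation and with the dependence on `β, γ` made explicit.
-/

open Polynomial Pool.Agent.H337R2 Pool.Agent.H574R2.Q4 Pool.Agent.H574R2.Q4.GN Filter Topology

namespace Pool.Agent.TH21.PD75

noncomputable section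

set_option autoImplicit false

/-- the total potential of the zeta part at the poles -/
lemma potX (G3 : AM.SG3) : ∃ C : ℝ, 0 < C ∧ ∀ n : ℕ, 30 ≤ n → ∀ u : ℤ, |u| ≤ n →
    n * phi (100 * (u : ℝ) / n) + Lp n (Finset.range (36 * n - 72)) (100 * u) +
      Lp n (Finset.range (12 * n - 24)) (100 * u) ≤
      149 * n + 96 * n * Real.log n + C * Real.log n := by
  obtain ⟨C3, hC3, h3⟩ := G3
  refine ⟨16 * C3, by positivity, fun n hn u hu => ?_⟩
  have hn' := AM.cast_le hn
  have hn0 : (0 : ℝ) < n := by linarith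
  have hl2 : 0 < Real.log 2 := Real.log_pos (by norm_num)
  have hl := AM.log2_le hn
  have hu' : |(u : ℝ)| ≤ n := by exact_mod_cast hu
  have hu1 := abs_le.mp hu'
  have a2 := (abs_le.mp (h3 n hn 0 12 (by norm_num) le_rfl (100 * u))).2
  have a3 := (abs_le.mp (h3 n hn 0 4 (by norm_num) (by norm_num) (100 * u))).2
  rw [← AM.range12] at a2
  rw [← AM.range4] at a3
  push_cast at a2 a3
  have habs : |100 * (u : ℝ)| = 100 * |(u : ℝ)| := by rw [abs_mul]; norm_num
  rw [habs] at a2 a3
  have hab0 := abs_nonneg (u : ℝ)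
  have hlog : Real.log ((n : ℝ) + 100 * |(u : ℝ)|) ≤ 8 * Real.log n := by
    have := AM.log_pow_mul (x := (n : ℝ) + 100 * |(u : ℝ)|) (y := n) 7 (by linarith) hn0 hl
      (by linarith)
    push_cast at this
    linarith
  rw [AM.Ub_total] at a2
  rw [← Finset.range_eq_Ico] at a3
  have hC3l : C3 * Real.log ((n : ℝ) + 100 * |(u : ℝ)|) ≤ 8 * (C3 * Real.log n) := by
    calc C3 * Real.log ((n : ℝ) + 100 * |(u : ℝ)|) ≤ C3 * (8 * Real.log n) := by gcongr
      _ = _ := by ring
  have hw1 : -100 ≤ 100 * (u : ℝ) / n := by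
    rw [le_div_iff₀ hn0]; linarith
  have hw2 : 100 * (u : ℝ) / n ≤ 100 := by
    rw [div_le_iff₀ hn0]; linarith
  have hF := mul_le_mul_of_nonneg_left (FN_in _ hw1 hw2) hn0.le
  unfold FN at hF
  have e3 : 16 * C3 * Real.log n = 8 * (C3 * Real.log n) + 8 * (C3 * Real.log n) := by ring
  rw [e3]
  simp only [sub_zero] at a2 a3
  have e5 : ∑ g ∈ Finset.range 8, Ub g (100 * (u : ℝ) / n) = ∑ g ∈ Finset.range 4, Ub g (100 * (u : ℝ) / n) +
      ∑ g ∈ Finset.Ico 4 8, Ub g (100 * (u : ℝ) / n) := by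
    rw [Finset.sum_range_add_sum_Ico _ (by norm_num)]
  rw [e5] at hF
  have e4 : (n : ℝ) * (phi (100 * (u : ℝ) / n) + 2 * (∑ g ∈ Finset.range 4, Ub g (100 * (u : ℝ) / n) +
      ∑ g ∈ Finset.Ico 4 8, Ub g (100 * (u : ℝ) / n))) = n * phi (100 * (u : ℝ) / n) +
      n * (∑ g ∈ Finset.range 4, Ub g (100 * (u : ℝ) / n) + 2 * ∑ g ∈ Finset.Ico 4 8, Ub g (100 * (u : ℝ) / n)) +
      n * ∑ g ∈ Finset.range 4, Ub g (100 * (u : ℝ) / n) := by ring
  rw [e4] at hF
  linarith

open AM in
/-- **the archimedean part** at perturbed zeta values, uniform in the numbers -/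
theorem arch : ∀ᶠ n : ℕ in atTop, ∀ (α β γ : ℕ → ℚ) (θ₁ θ₂ : ℝ),
    (∀ i ∈ I37, |(α i : ℝ) + θ₁ * (β i : ℝ) + θ₂ * (γ i : ℝ) - zr i| ≤ Real.exp (-(351 * n))) →
    DD n α β γ ≠ 0 →
    Real.log |((DD n α β γ : ℚ) : ℝ)| ≤ 1728 * (n : ℝ) ^ 2 * Real.log n - 1157 * (n : ℝ) ^ 2 +
      12 * n * Real.log (1 + ∑ r ∈ Finset.Icc 1 76, |(β r : ℝ)|) +
      12 * n * Real.log (1 + ∑ r ∈ Finset.Icc 1 76, |(γ r : ℝ)|) := by
  have G0z : AM.SG0z := fun hn => G0_zq_inj hn
  have G0X : AM.SG0X := fun hn h1 h2 => G0_nd_X hn h1 h2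
  have G0Y : AM.SG0Y := fun hn h1 h2 => G0_nd_Y hn h1 h2
  have G3 : AM.SG3 := G3_Lp
  have G4 : AM.SG4 := G4_weight
  have G6c : AM.SG6c := fun hn => G6_cross hn
  have V1 : AM.SV1 := fun w h1 => V1_upper w h1
  have V1t : AM.SV1t := fun w h1 => V1_tail w h1
  have V2 : AM.SV2 := fun w h0 h1 => V2_lower w h0 h1
  have V3 : AM.SV3 := fun w h0 h1 => V3_upperY w h0 h1
  obtain ⟨K1, hK1, hsup⟩ := supN G3 G4 V1 V1t
  obtain ⟨K2, hK2, hlow⟩ := lowN G3 G4 V2
  obtain ⟨C3, hC3, hY⟩ := potY G3 V3
  obtain ⟨C9, hC9, hX⟩ := potX G3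
  obtain ⟨C5, hC5, hS⟩ := G5_sat
  obtain ⟨C6, hC6, hG6⟩ := G6_pair_of G3_Lp
  obtain ⟨K7, hK7, h1000⟩ := const_le (Real.log 1001)
  obtain ⟨K8, hK8, h2000⟩ := const_le (Real.log 2000)
  obtain ⟨K9, hK9, h4⟩ := const_le (Real.log 37)
  have hKl : 0 ≤ Real.log G2K := Real.log_nonneg G2K_one
  set C2 : ℝ := 7207 + Real.log G2K with hC2d
  have hC2 : 0 < C2 := by linarith
  set T : ℝ := 252 + 800 + 9 * (K1 + K2 + K8) + 3 * (K7 + K1) + 24 * (C3 + C2) + C5 + 432 * C6 + 6120 with hT
  have hlim0 : Tendsto (fun n : ℕ => Real.log n / (n : ℝ)) atTop (𝓝 0) := by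
    have := (Real.isLittleO_log_id_atTop.tendsto_div_nhds_zero).comp tendsto_natCast_atTop_atTop
    simpa [Function.comp_def] using this
  have hpert : ∀ᶠ n : ℕ in atTop, (K9 + C9 + C2) * Real.log n ≤ 1 * n := by
    have h2 : Tendsto (fun n : ℕ => (K9 + C9 + C2) * (Real.log n / (n : ℝ))) atTop (𝓝 ((K9 + C9 + C2) * 0)) :=
      hlim0.const_mul _
    rw [mul_zero] at h2
    filter_upwards [h2.eventually (gt_mem_nhds (show (0 : ℝ) < 1 by norm_num)), eventually_ge_atTop 1]
      with n h3 h4
    have hn0 : (0 : ℝ) < n := by exact_mod_cast h4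
    have h5 : (K9 + C9 + C2) * Real.log n = ((K9 + C9 + C2) * (Real.log n / (n : ℝ))) * n := by
      field_simp
    rw [h5]
    gcongr
  have key : ∀ᶠ n : ℕ in atTop, ∀ (α β γ : ℕ → ℚ) (θ₁ θ₂ : ℝ),
      (∀ i ∈ I37, |(α i : ℝ) + θ₁ * (β i : ℝ) + θ₂ * (γ i : ℝ) - zr i| ≤ Real.exp (-(351 * n))) →
      DD n α β γ ≠ 0 →
      Real.log |((DD n α β γ : ℚ) : ℝ)| ≤ 1728 * ((n : ℝ) ^ 2 * Real.log n) - 1158 * (n : ℝ) ^ 2 +
        T * (n * Real.log n) + 12 * n * Real.log (1 + ∑ r ∈ Finset.Icc 1 76, |(β r : ℝ)|) +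
        12 * n * Real.log (1 + ∑ r ∈ Finset.Icc 1 76, |(γ r : ℝ)|) := by
    filter_upwards [hsup, hpert, eventually_ge_atTop 30] with n hsup hpert hn α β γ θ₁ θ₂ h hD
    set LB : ℝ := Real.log (1 + ∑ r ∈ Finset.Icc 1 76, |(β r : ℝ)|) with hLB
    have hLB0 : 0 ≤ LB := Real.log_nonneg (by
      have : 0 ≤ ∑ r ∈ Finset.Icc 1 76, |(β r : ℝ)| := Finset.sum_nonneg fun _ _ => abs_nonneg _
      linarith)
    set LC : ℝ := Real.log (1 + ∑ r ∈ Finset.Icc 1 76, |(γ r : ℝ)|) with hLC
    have hLC0 : 0 ≤ LC := Real.log_nonneg (by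
      have : 0 ≤ ∑ r ∈ Finset.Icc 1 76, |(γ r : ℝ)| := Finset.sum_nonneg fun _ _ => abs_nonneg _
      linarith)
    have hn' := cast_le hn
    have hnp : (0 : ℝ) < n := by linarith
    have hl2 : 0 < Real.log 2 := Real.log_pos (by norm_num)
    have hl := log2_le hn
    have hln : 0 < Real.log n := by linarith
    have hlog3n : (3 : ℝ) ≤ Real.log n := log3_le hn
    set MM : ℝ := Real.exp (-201 * n + 96 * n * Real.log n + K1 * Real.log n) with hMM
    have hMM0 : 0 < MM := Real.exp_pos _
    set L : ℕ → ℝ := fun j => Lp n (Finset.range (36 * n - 72)) (100 * (3 * n + 1 + j)) +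
      Lp n (Finset.range (12 * n - 24)) (100 * (3 * n + 1 + j)) with hL
    set b : ℕ → ℝ := fun j => if j < 9 * n - 1 then wv n (3 * n + 1 + j) * Real.exp (L j) + 1001 * MM
      else if j < 12 * n - 24 then 1001 * MM
      else if j < 24 * n - 48 then Real.exp (68 * n + 96 * n * Real.log n + C3 * Real.log n + C2 * Real.log n + LB)
      else Real.exp (68 * n + 96 * n * Real.log n + C3 * Real.log n + C2 * Real.log n + LC) with hb
    have hbpos : ∀ j, 0 < b j := by
      intro j
      rw [hb]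
      dsimp only
      have := wv_pos n (v := 3 * n + 1 + j) (by omega)
      split_ifs <;> positivity
    -- the matrix
    have e14 : 3 * (12 * n - 24) = 36 * n - 72 := by omega
    have e15 : 2 * (12 * n - 24) = 24 * n - 48 := by omega
    have hinj : Set.InjOn (zq n) (Finset.range (3 * (12 * n - 24))) := by
      rw [e14]
      exact G0z hn
    have h5 := A5_lagrange (AL n α) (BL n β) (BL n γ) θ₁ θ₂ (12 * n - 24) (zq n) hinj
    rw [e14, e15] at h5
    change _ = ((DD n α β γ : ℚ) : ℝ) ^ 2 * (VD _ _ * VD _ _ * VD _ _ * VD _ _) at h5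
    set M : Matrix (Fin (36 * n - 72)) (Fin (36 * n - 72)) ℝ := (Matrix.of fun i j : Fin (36 * n - 72) =>
      if j.1 < 12 * n - 24 then
        ((AL n α (lag (Finset.range (36 * n - 72)) (zq n) i.1 * lag (Finset.range (12 * n - 24)) (zq n) j.1) : ℚ) : ℝ) +
          θ₁ * ((BL n β (lag (Finset.range (36 * n - 72)) (zq n) i.1 * lag (Finset.range (12 * n - 24)) (zq n) j.1) : ℚ) : ℝ) +
          θ₂ * ((BL n γ (lag (Finset.range (36 * n - 72)) (zq n) i.1 * lag (Finset.range (12 * n - 24)) (zq n) j.1) : ℚ) : ℝ)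
      else if j.1 < 24 * n - 48 then
        ((BL n β (lag (Finset.range (36 * n - 72)) (zq n) i.1 *
        lag (Finset.Ico (12 * n - 24) (24 * n - 48)) (zq n) j.1) : ℚ) : ℝ)
      else ((BL n γ (lag (Finset.range (36 * n - 72)) (zq n) i.1 *
        lag (Finset.Ico (24 * n - 48) (36 * n - 72)) (zq n) j.1) : ℚ) : ℝ)) with hM
    have hentry : ∀ i j : Fin (36 * n - 72), |M i j| ≤ b j := by
      intro i j
      rw [hM, hb]
      simp only [Matrix.of_apply]
      by_cases hj7 : j.1 < 12 * n - 24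
      · rw [if_pos hj7]
        have h1 := sv_entry hn MM hMM0.le hsup i.1 j.1 i.2 hj7
        have hi' : i.1 ∈ Finset.range (36 * n - 72) := Finset.mem_range.mpr i.2
        have hj' : j.1 ∈ Finset.range (12 * n - 24) := Finset.mem_range.mpr hj7
        have hdeg : (lag (Finset.range (36 * n - 72)) (zq n) i.1 *
            lag (Finset.range (12 * n - 24)) (zq n) j.1).natDegree ≤ 48 * n := by
          refine (Polynomial.natDegree_mul_le).trans ?_
          have h1 := g1_deg_lag n (Finset.range (36 * n - 72)) i.1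
          have h2 := g1_deg_lag n (Finset.range (12 * n - 24)) j.1
          rw [Finset.card_erase_of_mem hi', Finset.card_range] at h1
          rw [Finset.card_erase_of_mem hj', Finset.card_range] at h2
          omega
        have h2 := sv_add (by omega : 10 ≤ n) α β γ θ₁ θ₂ _ hdeg
        rw [h2]
        have h3 : |∑ r ∈ I37, ((rho n (PM n * EM n (lag (Finset.range (36 * n - 72)) (zq n) i.1 *
            lag (Finset.range (12 * n - 24)) (zq n) j.1)) r : ℚ) : ℝ) *
            ((α r : ℝ) + θ₁ * (β r : ℝ) + θ₂ * (γ r : ℝ) - zr r)| ≤ MM := by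
          have hrho := rho_le (a := 0) (b := 12 * n - 24) hn (by omega) _
            (fun u hu => by
              rw [← Finset.range_eq_Ico]
              exact hX n hn u hu) i.1 j.1
          rw [← Finset.range_eq_Ico] at hrho
          refine (Finset.abs_sum_le_sum_abs _ _).trans ?_
          have h5 : ∀ r ∈ I37, |((rho n (PM n * EM n (lag (Finset.range (36 * n - 72)) (zq n) i.1 *
            lag (Finset.range (12 * n - 24)) (zq n) j.1)) r : ℚ) : ℝ) *
            ((α r : ℝ) + θ₁ * (β r : ℝ) + θ₂ * (γ r : ℝ) - zr r)| ≤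
              Real.exp (149 * n + 96 * n * Real.log n + C9 * Real.log n + C2 * Real.log n) *
                Real.exp (-(351 * n)) := by
            intro r hr
            rw [abs_mul]
            have hr' : r ∈ Finset.Icc 1 76 := by
              rw [mem_I37] at hr
              rw [Finset.mem_Icc]
              omega
            exact mul_le_mul (hrho r hr') (h r hr) (abs_nonneg _) (Real.exp_pos _).le
          refine (Finset.sum_le_sum h5).trans ?_
          rw [Finset.sum_const]
          have hcard : I37.card = 37 := by decide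
          rw [hcard, nsmul_eq_mul, ← Real.exp_add]
          have e4 : ((37 : ℕ) : ℝ) = Real.exp (Real.log 37) := by
            rw [Real.exp_log (by norm_num)]
            norm_num
          rw [e4, ← Real.exp_add, hMM]
          apply Real.exp_le_exp.2
          have h44 := h4 n hn
          have hK1l : 0 ≤ K1 * Real.log n := by positivity
          linarith
        have h6 := abs_add_le (sv n (lag (Finset.range (36 * n - 72)) (zq n) i.1 *
            lag (Finset.range (12 * n - 24)) (zq n) j.1)) (∑ r ∈ I37,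
            ((rho n (PM n * EM n (lag (Finset.range (36 * n - 72)) (zq n) i.1 *
            lag (Finset.range (12 * n - 24)) (zq n) j.1)) r : ℚ) : ℝ) *
            ((α r : ℝ) + θ₁ * (β r : ℝ) + θ₂ * (γ r : ℝ) - zr r))
        refine h6.trans ?_
        by_cases hj2 : j.1 < 9 * n - 1
        · rw [if_pos hj2]
          rw [if_pos hj2] at h1
          rw [hL]
          dsimp only
          linarith
        · rw [if_neg hj2, if_pos hj7]
          rw [if_neg hj2, zero_add] at h1
          linarith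
      · by_cases hj8 : j.1 < 24 * n - 48
        · rw [if_neg hj7, if_pos hj8, if_neg (by omega), if_neg hj7, if_pos hj8]
          exact BL_le hn β (by omega) _ (fun u hu => hY n hn _ _ (Or.inl ⟨rfl, rfl⟩) u hu) i.1 j.1
        · rw [if_neg hj7, if_neg hj8, if_neg (by omega), if_neg hj7, if_neg hj8]
          exact BL_le hn γ (by omega) _ (fun u hu => hY n hn _ _ (Or.inr ⟨rfl, rfl⟩) u hu) i.1 j.1
    have hdet := Pool.Agent.LZ.A6_det_le (36 * n - 72) M b (fun j => (hbpos j).le) hentry
    -- logarithms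
    have hDr : ((DD n α β γ : ℚ) : ℝ) ≠ 0 := by exact_mod_cast hD
    have v1 := VD_pos G0z hn (s := Finset.range (36 * n - 72)) (Finset.Subset.refl _)
    have v2 := VD_pos G0z hn (s := Finset.range (12 * n - 24))
      (Finset.range_subset_range.mpr (by omega))
    have v3 := VD_pos G0z hn (s := Finset.Ico (12 * n - 24) (24 * n - 48))
      (fun i hi => Finset.mem_range.mpr (by have := (Finset.mem_Ico.mp hi).2; omega))
    have v4 := VD_pos G0z hn (s := Finset.Ico (24 * n - 48) (36 * n - 72))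
      (fun i hi => Finset.mem_range.mpr (Finset.mem_Ico.mp hi).2)
    have hM0 : M.det ≠ 0 := by
      intro h0
      rw [h0] at h5
      have : (0 : ℝ) < ((DD n α β γ : ℚ) : ℝ) ^ 2 *
        (VD (Finset.range (36 * n - 72)) (zq n) * VD (Finset.range (12 * n - 24)) (zq n) *
          VD (Finset.Ico (12 * n - 24) (24 * n - 48)) (zq n) * VD (Finset.Ico (24 * n - 48) (36 * n - 72)) (zq n)) := by
        positivity
      rw [← h5] at this
      norm_num at this
    have hlog1 : 2 * Real.log |M.det| = 2 * Real.log |((DD n α β γ : ℚ) : ℝ)| +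
        (Real.log (VD (Finset.range (36 * n - 72)) (zq n)) + Real.log (VD (Finset.range (12 * n - 24)) (zq n)) +
          Real.log (VD (Finset.Ico (12 * n - 24) (24 * n - 48)) (zq n)) +
          Real.log (VD (Finset.Ico (24 * n - 48) (36 * n - 72)) (zq n))) := by
      have := congrArg Real.log h5
      rw [Real.log_pow, Real.log_mul (pow_ne_zero 2 hDr) (by positivity), Real.log_pow,
        Real.log_mul (by positivity) v4.ne', Real.log_mul (by positivity) v3.ne', Real.log_mul v1.ne' v2.ne'] at this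
      rw [Real.log_abs, Real.log_abs]
      push_cast at this
      exact this
    have hlog2 : Real.log |M.det| ≤ Real.log ((36 * n - 72).factorial : ℝ) +
        ∑ j ∈ Finset.range (36 * n - 72), Real.log (b j) := by
      rw [← Real.log_prod (fun i _ => (hbpos i).ne'),
        ← Real.log_mul (by positivity) (Finset.prod_pos fun i _ => hbpos i).ne']
      exact Real.log_le_log (abs_pos.mpr hM0) hdet
    have hcross := G6c hn
    have hfac := logfac hn
    have h1000n := h1000 n hn
    have h2000n := h2000 n hn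
    -- the three ranges
    have hb1 : ∀ j ∈ Finset.range (9 * n - 1), Real.log (b j) ≤ Real.log (wv n (3 * n + 1 + j)) + L j +
        (1 * (n : ℝ) + (K1 + K2 + K8) * Real.log n) := by
      intro j hj
      rw [Finset.mem_range] at hj
      have hlo := hlow n hn (3 * n + 1 + j) (by omega) (by omega)
      rw [hb]
      dsimp only
      rw [if_pos hj]
      have hLe : Lp n (Finset.range (36 * n - 72)) (100 * ((3 * n + 1 + j : ℕ) : ℤ)) +
          Lp n (Finset.range (12 * n - 24)) (100 * ((3 * n + 1 + j : ℕ) : ℤ)) = L j := by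
        rw [hL]
        push_cast
        rfl
      rw [hLe] at hlo
      have hW := wv_pos n (v := 3 * n + 1 + j) (by omega)
      have e1 : wv n (3 * n + 1 + j) * Real.exp (L j) = Real.exp (Real.log (wv n (3 * n + 1 + j)) + L j) := by
        rw [Real.exp_add (Real.log (wv n (3 * n + 1 + j))) (L j), Real.exp_log hW]
      set A : ℝ := Real.log (wv n (3 * n + 1 + j)) + L j with hA
      set R : ℝ := 1 * (n : ℝ) + (K1 + K2) * Real.log n with hR
      have hR0 : 0 ≤ R := by rw [hR]; positivity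
      have e2 : MM ≤ Real.exp (A + R) := by
        rw [hMM]
        apply Real.exp_le_exp.mpr
        rw [hR]
        linarith
      have e3 : Real.exp A ≤ Real.exp (A + R) := Real.exp_le_exp.mpr (by linarith)
      have e4 : wv n (3 * n + 1 + j) * Real.exp (L j) + 1001 * MM ≤ 2000 * Real.exp (A + R) := by
        rw [e1]
        have := Real.exp_pos (A + R)
        linarith
      calc Real.log (wv n (3 * n + 1 + j) * Real.exp (L j) + 1001 * MM) ≤ Real.log (2000 * Real.exp (A + R)) :=
            Real.log_le_log (by positivity) e4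
        _ = Real.log 2000 + (A + R) := by
            rw [Real.log_mul (by norm_num) (Real.exp_pos _).ne', Real.log_exp]
        _ ≤ _ := by
            rw [hR]
            linarith
    have hb2 : ∀ j ∈ Finset.Ico (9 * n - 1) (12 * n - 24), Real.log (b j) ≤
        -201 * n + 96 * n * Real.log n + (K7 + K1) * Real.log n := by
      intro j hj
      rw [Finset.mem_Ico] at hj
      rw [hb]
      dsimp only
      rw [if_neg (by omega), if_pos hj.2, Real.log_mul (by norm_num) hMM0.ne', hMM, Real.log_exp]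
      linarith
    have hb3 : ∀ j ∈ Finset.Ico (12 * n - 24) (24 * n - 48), Real.log (b j) ≤
        68 * n + 96 * n * Real.log n + (C3 + C2) * Real.log n + LB := by
      intro j hj
      rw [Finset.mem_Ico] at hj
      rw [hb]
      dsimp only
      rw [if_neg (by omega), if_neg (by omega), if_pos hj.2, Real.log_exp]
      linarith
    have hb4 : ∀ j ∈ Finset.Ico (24 * n - 48) (36 * n - 72), Real.log (b j) ≤
        68 * n + 96 * n * Real.log n + (C3 + C2) * Real.log n + LC := by
      intro j hj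
      rw [Finset.mem_Ico] at hj
      rw [hb]
      dsimp only
      rw [if_neg (by omega), if_neg (by omega), if_neg (by omega), Real.log_exp]
      linarith
    have hs1 := Finset.sum_le_sum hb1
    have hs2 := Finset.sum_le_sum hb2
    have hs3 := Finset.sum_le_sum hb3
    have hs4 := Finset.sum_le_sum hb4
    rw [Finset.sum_add_distrib, Finset.sum_const, Finset.card_range, nsmul_eq_mul] at hs1
    rw [Finset.sum_const, Nat.card_Ico, nsmul_eq_mul] at hs2 hs3 hs4
    have c1 : ((9 * n - 1 : ℕ) : ℝ) ≤ 9 * n := by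
      have : ((9 * n - 1 : ℕ) : ℝ) ≤ ((9 * n : ℕ) : ℝ) := by exact_mod_cast (by omega : 9 * n - 1 ≤ 9 * n)
      push_cast at this
      exact this
    have c2 : ((12 * n - 24 - (9 * n - 1) : ℕ) : ℝ) ≤ 3 * n := by
      have : ((12 * n - 24 - (9 * n - 1) : ℕ) : ℝ) ≤ ((3 * n : ℕ) : ℝ) := by
        exact_mod_cast (by omega : 12 * n - 24 - (9 * n - 1) ≤ 3 * n)
      push_cast at this
      exact this
    have c3 : ((24 * n - 48 - (12 * n - 24) : ℕ) : ℝ) ≤ 12 * n := by
      have : ((24 * n - 48 - (12 * n - 24) : ℕ) : ℝ) ≤ ((12 * n : ℕ) : ℝ) := by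
        exact_mod_cast (by omega : 24 * n - 48 - (12 * n - 24) ≤ 12 * n)
      push_cast at this
      exact this
    have c4 : ((36 * n - 72 - (24 * n - 48) : ℕ) : ℝ) ≤ 12 * n := by
      have : ((36 * n - 72 - (24 * n - 48) : ℕ) : ℝ) ≤ ((12 * n : ℕ) : ℝ) := by
        exact_mod_cast (by omega : 36 * n - 72 - (24 * n - 48) ≤ 12 * n)
      push_cast at this
      exact this
    have m1 := mul_le_mul_of_nonneg_right c1
      (show 0 ≤ 1 * (n : ℝ) + (K1 + K2 + K8) * Real.log n by positivity)
    have m2 := mul_le_mul_of_nonneg_right c2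
      (show 0 ≤ -201 * (n : ℝ) + 96 * n * Real.log n + (K7 + K1) * Real.log n by
        have t1 : 0 ≤ (K7 + K1) * Real.log n := by positivity
        have t2 : (n : ℝ) * 3 ≤ n * Real.log n := mul_le_mul_of_nonneg_left hlog3n hnp.le
        linarith)
    have m3 := mul_le_mul_of_nonneg_right c3
      (show 0 ≤ 68 * (n : ℝ) + 96 * n * Real.log n + (C3 + C2) * Real.log n + LB by positivity)
    have m4 := mul_le_mul_of_nonneg_right c4
      (show 0 ≤ 68 * (n : ℝ) + 96 * n * Real.log n + (C3 + C2) * Real.log n + LC by positivity)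
    have hsplit : ∑ j ∈ Finset.range (36 * n - 72), Real.log (b j) =
        ∑ j ∈ Finset.range (9 * n - 1), Real.log (b j) + ∑ j ∈ Finset.Ico (9 * n - 1) (12 * n - 24), Real.log (b j) +
          ∑ j ∈ Finset.Ico (12 * n - 24) (24 * n - 48), Real.log (b j) +
          ∑ j ∈ Finset.Ico (24 * n - 48) (36 * n - 72), Real.log (b j) := by
      rw [Finset.sum_range_add_sum_Ico _ (by omega), Finset.sum_range_add_sum_Ico _ (by omega),
        Finset.sum_range_add_sum_Ico _ (by omega)]
    -- energies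
    have hSn := hS n hn
    have hG60 := fun g hg h hh => hG6 n hn g hg h hh 0 le_rfl zero_le_one
    have hG61 := fun g hg h hh => hG6 n hn g hg h hh 1 zero_le_one le_rfl
    have hE1 := energy hC6 hn hG60 3 4 3 12 (by norm_num) (by norm_num) (by norm_num) (by norm_num)
    have hE2 := energy hC6 hn hG60 4 8 4 12 (by norm_num) (by norm_num) (by norm_num) (by norm_num)
    have hE3 := energy hC6 hn hG61 8 12 8 12 (by norm_num) (by norm_num) (by norm_num) (by norm_num)
    have hE1' := energy1 G0X G0Y hn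
    rw [energy2 n hn] at hE2
    rw [energy3 n hn] at hE3
    have hcr1 : ∑ i ∈ Finset.range (9 * n - 1), (Lp n (Finset.range (36 * n - 72)) (nd n i) +
        Lp n (Finset.range (12 * n - 24)) (nd n i) - Lp n (Finset.range (9 * n - 1)) (nd n i)) =
        ∑ i ∈ Finset.range (9 * n - 1), (Real.log (wv n (3 * n + 1 + i)) + L i) -
        ∑ i ∈ Finset.range (9 * n - 1), (Real.log (wv n (3 * n + 1 + i)) +
          Lp n (Finset.range (9 * n - 1)) (100 * (3 * n + 1 + i))) := by
      rw [← Finset.sum_sub_distrib]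
      apply Finset.sum_congr rfl
      intro i hi
      rw [nd_sat (Finset.mem_range.mp hi), hL]
      dsimp only
      ring
    rw [hcr1] at hcross
    have hV4 : eS * (n : ℝ) ^ 2 ≤ -2725 * (n : ℝ) ^ 2 :=
      mul_le_mul_of_nonneg_right V4_eS (by positivity)
    have hV5 : -529 * (n : ℝ) ^ 2 ≤ eN * (n : ℝ) ^ 2 :=
      mul_le_mul_of_nonneg_right V5_eN (by positivity)
    rw [eN_eq, add_mul, add_mul] at hV5
    rw [hsplit] at hlog2
    norm_num at hE1 hE2 hE3
    have h40 : 100 * (n : ℝ) * Real.log (100 * n) ≤ 800 * (n * Real.log n) := by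
      have := log_pow_mul (x := 100 * (n : ℝ)) (y := n) 7 (by linarith) hnp hl (by linarith)
      push_cast at this
      have h6 : Real.log (100 * (n : ℝ)) ≤ 8 * Real.log n := by linarith
      calc 100 * (n : ℝ) * Real.log (100 * n) ≤ 100 * n * (8 * Real.log n) := by gcongr
        _ = _ := by ring
    have t1 : 9 * (n : ℝ) * (1 * (n : ℝ) + (K1 + K2 + K8) * Real.log n) =
      9 * (n : ℝ) ^ 2 + 9 * (K1 + K2 + K8) * (n * Real.log n) := by ring
    have t2 : 3 * (n : ℝ) * (-201 * n + 96 * n * Real.log n + (K7 + K1) * Real.log n) =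
      -603 * (n : ℝ) ^ 2 + 288 * ((n : ℝ) ^ 2 * Real.log n) + 3 * (K7 + K1) * (n * Real.log n) := by ring
    have t3 : 12 * (n : ℝ) * (68 * n + 96 * n * Real.log n + (C3 + C2) * Real.log n + LB) =
      816 * (n : ℝ) ^ 2 + 1152 * ((n : ℝ) ^ 2 * Real.log n) + 12 * (C3 + C2) * (n * Real.log n) +
        12 * n * LB := by ring
    have t3' : 12 * (n : ℝ) * (68 * n + 96 * n * Real.log n + (C3 + C2) * Real.log n + LC) =
      816 * (n : ℝ) ^ 2 + 1152 * ((n : ℝ) ^ 2 * Real.log n) + 12 * (C3 + C2) * (n * Real.log n) +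
        12 * n * LC := by ring
    have t4 : 36 * (n : ℝ) * (7 * Real.log n) = 252 * (n * Real.log n) := by ring
    have t5 : T * (n * Real.log n) = 252 * (n * Real.log n) + 800 * (n * Real.log n) +
      9 * (K1 + K2 + K8) * (n * Real.log n) +
      3 * (K7 + K1) * (n * Real.log n) + 24 * (C3 + C2) * (n * Real.log n) + C5 * n * Real.log n +
      432 * (C6 * n * Real.log n) + 6120 * (n * Real.log n) := by rw [hT]; ring
    have t6 : 162 * (n : ℝ) ^ 2 * Real.log n = 162 * ((n : ℝ) ^ 2 * Real.log n) := by ring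
    rw [t1] at m1
    rw [t2] at m2
    rw [t3] at m3
    rw [t3'] at m4
    rw [t4] at hfac
    rw [t6] at hSn
    rw [t5]
    linarith
  -- conclude
  have hlim : ∀ᶠ n : ℕ in atTop, T * (n * Real.log n) ≤ 1 * (n : ℝ) ^ 2 := by
    have h2 : Tendsto (fun n : ℕ => T * (Real.log n / (n : ℝ))) atTop (𝓝 (T * 0)) := hlim0.const_mul _
    rw [mul_zero] at h2
    filter_upwards [h2.eventually (gt_mem_nhds (show (0 : ℝ) < 1 by norm_num)), eventually_ge_atTop 1]
      with n h3 h4
    have hn0 : (0 : ℝ) < n := by exact_mod_cast h4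
    have h5 : T * (n * Real.log n) = (T * (Real.log n / (n : ℝ))) * (n : ℝ) ^ 2 := by
      field_simp
    rw [h5]
    gcongr
  filter_upwards [hlim, key] with n h1 h2 α β γ θ₁ θ₂ h hD
  have := h2 α β γ θ₁ θ₂ h hD
  linarith


end

end Pool.Agent.TH21.PD75
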