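import Pool.Agent.H574R2.Q4.V2

/-!
# A bound of the potential `FN` on `[-100, 100]`
-/

open Polynomial Pool.Agent.H337R2 Pool.Agent.H574R2.Q4

namespace Pool.Agent.TH21.PD75

noncomputable section

set_option autoImplicit false

/-- the certificate -/
lemma FX_chk : chk 1 (ngl V2.vl) (-46 * 10 ^ 12 * 35700) 1 200 (-100) = true := by decide +kernel

/-- the potential of the zeta part at the poles -/
theorem FN_in (w : ℝ) (h0 : -100 ≤ w) (h1 : w ≤ 100) : FN w ≤ 149 := by
  have hE : EF 35700 1 (ngl V2.vl) w ≤ -46 :=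
    EF_le (Dc := 35700) (M := 1) (l := ngl V2.vl) (A := -46 * 10 ^ 12 * 35700) (by norm_num) (by norm_num)
      (by norm_num) _ (by norm_num) (st := 1) (c := 200) (by norm_num) (x0 := -100) FX_chk w
      (by norm_num; linarith) (by norm_num; linarith)
  rw [EF_neg] at hE
  have h2 := abs_le.mp (lnA_spec 2 (by norm_num) (by norm_num))
  have h5 := abs_le.mp (lnA_spec 5 (by norm_num) (by norm_num))
  have e2 : lnA 2 = 693147180560 := by decide +kernel
  have e5 : lnA 5 = 1609437912428 := by decide +kernel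
  rw [e2] at h2
  rw [e5] at h5
  push_cast at h2 h5
  rw [V2.FN_eq]
  linarith [h2.1, h2.2, h5.1, h5.2]

end

end Pool.Agent.TH21.PD75
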