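import Pool.Agent.H574R2.Q4.ZF

/-!
# Non-vanishing of the determinants at parameters `2 p`, uniformly in the numbers

The proof is that of `H6_of` in `Pool/Agent/H574R2/Q4/H6pre.lean`; it only uses that the prime `p` does not
divide the denominators and the two leading coefficients.
-/

open Polynomial Pool.Agent.H337R2 Pool.Agent.H574R2.Q4

namespace Pool.Agent.TH21.PD75

noncomputable section

set_option autoImplicit false

lemma UInt_norm (p q : ℕ) (hpp : p.Prime) (hqp : ¬ p ∣ q) (u : ℕ → ℚ) (hu : UInt q u) (i : ℕ) :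
    padicNorm p (u i) ≤ 1 := by
  have : Fact p.Prime := ⟨hpp⟩
  have hq0 : 0 < q := hu.1
  obtain ⟨z, hz⟩ := hu.2 i
  have h1 : padicNorm p ((q : ℕ) : ℚ) = 1 := by
    rw [padicNorm.nat_eq_one_iff]
    exact hqp
  have h2 : padicNorm p ((q : ℚ) * u i) ≤ 1 := by
    rw [hz]
    exact padicNorm.of_int z
  rw [padicNorm.mul] at h2
  rw [h1, one_mul] at h2
  exact h2

/-- non-vanishing at prime parameters, one pair of indices -/
theorem nonv_of (A2_MD_ne : H6_A2) (H3_diag : H6_H3) (H4_offdiag : H6_H4) (H5_local : H6_H5)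
    (i1 i2 : ℕ) (h1 : i1 = 3 ∨ i1 = 5 ∨ i1 = 7) (h2 : i2 = 5 ∨ i2 = 7 ∨ i2 = 9) (h12 : i1 < i2) :
    ∃ p0 : ℕ, ∀ p : ℕ, p0 ≤ p → p.Prime → ∀ (α β γ : ℕ → ℚ) (q : ℕ), UInt q α → UInt q β → UInt q γ → ¬ p ∣ q →
      (∀ i < i1, β i = 0) → padicNorm p (β i1) = 1 → (∀ i < i2, γ i = 0) → padicNorm p (γ i2) = 1 →
      DD (2 * p) α β γ ≠ 0 := by
  have h1' : i1 = 3 ∨ i1 = 5 ∨ i1 = 7 ∨ i1 = 9 := by omega
  have h2' : i2 = 3 ∨ i2 = 5 ∨ i2 = 7 ∨ i2 = 9 := by omega
  -- bounds on the constants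
  obtain ⟨p1, hp1⟩ := Pool.Agent.H336R2.HD.H6_unit _ (H5_local i1 i2 h1 h2 h12)
  obtain ⟨p2, hp2⟩ := Pool.Agent.H574R2.D3.H6_fin_int Fm 191
  obtain ⟨p3, hp3⟩ := Pool.Agent.H574R2.D3.H6_fin_int (Bm i1) 191
  obtain ⟨p5, hp5⟩ := Pool.Agent.H574R2.D3.H6_fin_int (Bm i2) 191
  refine ⟨p1 + p2 + p3 + p5 + 100, fun p hp hpp α β γ q hα hβ hγ hpq hβ0 hβ1 hγ0 hγ1 => ?_⟩
  have : Fact p.Prime := ⟨hpp⟩
  have hp100 : 100 ≤ p := by omega
  have hodd : p % 2 = 1 := by
    rcases hpp.eq_two_or_odd with h | h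
    · omega
    · exact h
  have hαp : ∀ i, padicNorm p (α i) ≤ 1 := UInt_norm p q hpp hpq α hα
  have hβp : ∀ i, padicNorm p (β i) ≤ 1 := UInt_norm p q hpp hpq β hβ
  have hγp : ∀ i, padicNorm p (γ i) ≤ 1 := UInt_norm p q hpp hpq γ hγ
  set h := (p - 1) / 2 with hh
  have hph : p = 2 * h + 1 := by omega
  have hp0 : (p : ℚ) ≠ 0 := by exact_mod_cast hpp.ne_zero
  -- choose the units
  have hw : ∀ r : Fin h, ∃ w : ℚ, padicNorm p w = 1 ∧ ∀ e : ℕ, e ≤ 190 →
      padicNorm p ((p : ℚ) ^ (-(e : ℤ)) * AL (2 * p) α (XN (2 * p) (r.1 + 1) ^ e * OT p (r.1 + 1) 192) -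
        w * (-2 * ((r.1 + 1 : ℕ) : ℚ)) ^ e * Fm e) ≤ (p : ℚ)⁻¹ ∧
      padicNorm p ((p : ℚ) ^ (-(e : ℤ) - i1) * BL (2 * p) β (XN (2 * p) (r.1 + 1) ^ e * OT p (r.1 + 1) 192) -
        w * (-2 * ((r.1 + 1 : ℕ) : ℚ)) ^ e * (β i1 * Bm i1 e)) ≤ (p : ℚ)⁻¹ := by
    intro r
    have hr := r.2
    exact H3_diag hp100 α β hαp hβp i1 h1' hβ0 (r.1 + 1) (by omega) (by omega)
  have hv : ∀ r : Fin h, ∃ w : ℚ, padicNorm p w = 1 ∧ ∀ e : ℕ, e ≤ 190 →
      padicNorm p ((p : ℚ) ^ (-(e : ℤ)) * AL (2 * p) α (XN (2 * p) (r.1 + 1) ^ e * OT p (r.1 + 1) 192) -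
        w * (-2 * ((r.1 + 1 : ℕ) : ℚ)) ^ e * Fm e) ≤ (p : ℚ)⁻¹ ∧
      padicNorm p ((p : ℚ) ^ (-(e : ℤ) - i2) * BL (2 * p) γ (XN (2 * p) (r.1 + 1) ^ e * OT p (r.1 + 1) 192) -
        w * (-2 * ((r.1 + 1 : ℕ) : ℚ)) ^ e * (γ i2 * Bm i2 e)) ≤ (p : ℚ)⁻¹ := by
    intro r
    have hr := r.2
    exact H3_diag hp100 α γ hαp hγp i2 h2' hγ0 (r.1 + 1) (by omega) (by omega)
  choose w hw1 hw2 using hw
  choose v hv1 hv2 using hv
  have hunit : ∀ r : Fin h, padicNorm p (-2 * ((r.1 + 1 : ℕ) : ℚ)) = 1 := by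
    intro r
    have hr := r.2
    have h3 : (-2 * ((r.1 + 1 : ℕ) : ℚ)) = ((-(2 * (r.1 + 1) : ℕ) : ℤ) : ℚ) := by
      push_cast
      ring
    rw [h3, padicNorm.int_eq_one_iff]
    intro h4
    rw [Int.dvd_neg, Int.natCast_dvd_natCast] at h4
    have := Nat.le_of_dvd (by omega) h4
    omega
  -- the Gram matrix
  set Q : Fin 144 × Fin h → ℚ[X] := fun a => H6_P p (a.2.1 + 1) 144 a.1.1 with hQ
  set P : Fin 48 × Fin h → ℚ[X] := fun c => H6_P p (c.2.1 + 1) 48 c.1.1 with hP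
  set G : Matrix (Fin 144 × Fin h) (Fin 144 × Fin h) ℚ :=
    Matrix.of fun r s => Sum.elim (Sum.elim (fun c => AL (2 * p) α (Q r * P c))
      (fun c => BL (2 * p) β (Q r * P c))) (fun c => BL (2 * p) γ (Q r * P c)) (H6_e h s) with hG
  have key : G.det ≠ 0 := by
    set c : Fin 144 × Fin h → ℚ := fun a => (p : ℚ) ^ (-(a.1.1 : ℤ)) with hc
    set d : Fin 144 × Fin h → ℚ := fun a =>
      if a.1.1 < 48 then (p : ℚ) ^ (-(a.1.1 : ℤ))
      else if a.1.1 < 96 then (p : ℚ) ^ (-((a.1.1 - 48 : ℕ) : ℤ) - i1)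
      else (p : ℚ) ^ (-((a.1.1 - 96 : ℕ) : ℤ) - i2) with hd
    set M : Matrix (Fin 144 × Fin h) (Fin 144 × Fin h) ℚ :=
      Matrix.of fun a b => c a * d b * G a b with hM
    set Bl : Fin h → Matrix (Fin 144) (Fin 144) ℚ := fun r =>
      Matrix.of fun l l' => if l'.1 < 48 then
          w r * (-2 * ((r.1 + 1 : ℕ) : ℚ)) ^ (l.1 + l'.1) * Fm (l.1 + l'.1)
        else if l'.1 < 96 then
          w r * (-2 * ((r.1 + 1 : ℕ) : ℚ)) ^ (l.1 + (l'.1 - 48)) * (β i1 * Bm i1 (l.1 + (l'.1 - 48)))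
        else v r * (-2 * ((r.1 + 1 : ℕ) : ℚ)) ^ (l.1 + (l'.1 - 96)) * (γ i2 * Bm i2 (l.1 + (l'.1 - 96)))
      with hBl
    have hM0 : M.det ≠ 0 := by
      apply Pool.Agent.H336R2.HD.A6_det_congr p M (Matrix.blockDiagonal Bl)
      · intro a b
        rw [Matrix.blockDiagonal_apply]
        split_ifs with hab
        · simp only [hBl, Matrix.of_apply]
          have ha := a.1.2
          have hb := b.1.2
          split_ifs with hl hl2
          · have h1 : padicNorm p (Fm (a.1.1 + b.1.1)) ≤ 1 :=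
              hp2 _ (Finset.mem_range.2 (by omega)) p (by omega) hpp
            rw [padicNorm.mul, padicNorm.mul, hw1, one_mul,
              Pool.Agent.H574R2.D3.H6_norm_pow p _ (hunit a.2), one_mul]
            exact h1
          · have h1 : padicNorm p (Bm i1 (a.1.1 + (b.1.1 - 48))) ≤ 1 :=
              hp3 _ (Finset.mem_range.2 (by omega)) p (by omega) hpp
            rw [padicNorm.mul, padicNorm.mul, hw1, one_mul,
              Pool.Agent.H574R2.D3.H6_norm_pow p _ (hunit a.2), one_mul, padicNorm.mul]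
            exact mul_le_one₀ (hβp i1) (padicNorm.nonneg _) h1
          · have h1 : padicNorm p (Bm i2 (a.1.1 + (b.1.1 - 96))) ≤ 1 :=
              hp5 _ (Finset.mem_range.2 (by omega)) p (by omega) hpp
            rw [padicNorm.mul, padicNorm.mul, hv1, one_mul,
              Pool.Agent.H574R2.D3.H6_norm_pow p _ (hunit a.2), one_mul, padicNorm.mul]
            exact mul_le_one₀ (hγp i2) (padicNorm.nonneg _) h1
        · simp
      · intro a b
        rw [Matrix.blockDiagonal_apply]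
        have ha := a.1.2
        have hb := b.1.2
        have ha2 := a.2.2
        have hb2 := b.2.2
        by_cases hl : b.1.1 < 48
        · have hMab : M a b = (p : ℚ) ^ (-(a.1.1 : ℤ) - (b.1.1 : ℤ)) *
              AL (2 * p) α (H6_P p (a.2.1 + 1) 144 a.1.1 * H6_P p (b.2.1 + 1) 48 b.1.1) := by
            simp only [hM, hG, Matrix.of_apply, hc, hd, if_pos hl, H6_e_a h b hl, Sum.elim_inl, hQ, hP]
            rw [← zpow_add₀ hp0]
            rfl
          split_ifs with hab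
          · rw [hMab, ← hab, H6_P_mul]
            have h1 := (hw2 a.2 (a.1.1 + b.1.1) (by omega)).1
            have h2 : (-((a.1.1 + b.1.1 : ℕ) : ℤ)) = -(a.1.1 : ℤ) - (b.1.1 : ℤ) := by
              push_cast
              ring
            rw [h2] at h1
            simp only [hBl, Matrix.of_apply, if_pos hl]
            exact h1
          · rw [hMab, sub_zero]
            have h3 : a.2.1 + 1 ≠ b.2.1 + 1 := by
              intro h1
              apply hab
              ext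
              omega
            have h4 := (H4_offdiag hp100 α β hαp hβp i1 h1' hβ0 (a.2.1 + 1) (b.2.1 + 1) a.1.1 b.1.1 (by omega)
              (by omega) (by omega) (by omega) h3 ha hl).1
            simp only [H6_P]
            exact h4
        · by_cases hl2 : b.1.1 < 96
          · have hMab : M a b = (p : ℚ) ^ (-(a.1.1 : ℤ) - ((b.1.1 - 48 : ℕ) : ℤ) - i1) *
                BL (2 * p) β (H6_P p (a.2.1 + 1) 144 a.1.1 * H6_P p (b.2.1 + 1) 48 (b.1.1 - 48)) := by
              simp only [hM, hG, Matrix.of_apply, hc, hd, if_neg hl, if_pos hl2, H6_e_b h b hl hl2,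
                Sum.elim_inr, Sum.elim_inl, hQ, hP]
              rw [← zpow_add₀ hp0]
              congr 2
              ring
            split_ifs with hab
            · rw [hMab, ← hab, H6_P_mul]
              have h1 := (hw2 a.2 (a.1.1 + (b.1.1 - 48)) (by omega)).2
              have h2 : (-((a.1.1 + (b.1.1 - 48) : ℕ) : ℤ)) - i1 =
                  -(a.1.1 : ℤ) - ((b.1.1 - 48 : ℕ) : ℤ) - i1 := by
                push_cast
                ring
              rw [h2] at h1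
              simp only [hBl, Matrix.of_apply, if_neg hl, if_pos hl2]
              exact h1
            · rw [hMab, sub_zero]
              have h3 : a.2.1 + 1 ≠ b.2.1 + 1 := by
                intro h1
                apply hab
                ext
                omega
              have h4 := (H4_offdiag hp100 α β hαp hβp i1 h1' hβ0 (a.2.1 + 1) (b.2.1 + 1) a.1.1 (b.1.1 - 48)
                (by omega) (by omega) (by omega) (by omega) h3 ha (by omega)).2
              simp only [H6_P]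
              exact h4
          · have hMab : M a b = (p : ℚ) ^ (-(a.1.1 : ℤ) - ((b.1.1 - 96 : ℕ) : ℤ) - i2) *
                BL (2 * p) γ (H6_P p (a.2.1 + 1) 144 a.1.1 * H6_P p (b.2.1 + 1) 48 (b.1.1 - 96)) := by
              simp only [hM, hG, Matrix.of_apply, hc, hd, if_neg hl, if_neg hl2, H6_e_c h b hl hl2,
                Sum.elim_inr, hQ, hP]
              rw [← zpow_add₀ hp0]
              congr 2
              ring
            split_ifs with hab
            · rw [hMab, ← hab, H6_P_mul]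
              have h1 := (hv2 a.2 (a.1.1 + (b.1.1 - 96)) (by omega)).2
              have h2 : (-((a.1.1 + (b.1.1 - 96) : ℕ) : ℤ)) - i2 =
                  -(a.1.1 : ℤ) - ((b.1.1 - 96 : ℕ) : ℤ) - i2 := by
                push_cast
                ring
              rw [h2] at h1
              simp only [hBl, Matrix.of_apply, if_neg hl, if_neg hl2]
              exact h1
            · rw [hMab, sub_zero]
              have h3 : a.2.1 + 1 ≠ b.2.1 + 1 := by
                intro h1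
                apply hab
                ext
                omega
              have h4 := (H4_offdiag hp100 α γ hαp hγp i2 h2' hγ0 (a.2.1 + 1) (b.2.1 + 1) a.1.1 (b.1.1 - 96)
                (by omega) (by omega) (by omega) (by omega) h3 ha (by omega)).2
              simp only [H6_P]
              exact h4
      · rw [Matrix.det_blockDiagonal]
        apply Pool.Agent.H574R2.D3.H6_norm_prod p
        intro r
        have h1 : Bl r =
            (Matrix.of fun l l' : Fin 144 => ((-2 * ((r.1 + 1 : ℕ) : ℚ)) ^ l.1) *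
              (if l'.1 < 48 then w r * (-2 * ((r.1 + 1 : ℕ) : ℚ)) ^ l'.1
                else if l'.1 < 96 then w r * (-2 * ((r.1 + 1 : ℕ) : ℚ)) ^ (l'.1 - 48) * β i1
                else v r * (-2 * ((r.1 + 1 : ℕ) : ℚ)) ^ (l'.1 - 96) * γ i2) *
              (Matrix.of fun l l' : Fin 144 => if l'.1 < 48 then Fm (l.1 + l'.1)
                else if l'.1 < 96 then Bm i1 (l.1 + (l'.1 - 48)) else Bm i2 (l.1 + (l'.1 - 96))) l l') := by
          ext l l'
          simp only [hBl, Matrix.of_apply]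
          split_ifs <;> ring
        rw [h1, Pool.Agent.H574R2.D3.H6_det_scale (fun l : Fin 144 =>
          ((-2 * ((r.1 + 1 : ℕ) : ℚ)) ^ l.1)) (fun l' : Fin 144 =>
          (if l'.1 < 48 then w r * (-2 * ((r.1 + 1 : ℕ) : ℚ)) ^ l'.1
                else if l'.1 < 96 then w r * (-2 * ((r.1 + 1 : ℕ) : ℚ)) ^ (l'.1 - 48) * β i1
                else v r * (-2 * ((r.1 + 1 : ℕ) : ℚ)) ^ (l'.1 - 96) * γ i2))]
        have h5 : ∀ i : Fin 144, padicNorm p ((-2 * ((r.1 + 1 : ℕ) : ℚ)) ^ i.1) = 1 := fun i =>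
          Pool.Agent.H574R2.D3.H6_norm_pow p _ (hunit r) _
        have h6 : ∀ i : Fin 144, padicNorm p (if i.1 < 48 then w r * (-2 * ((r.1 + 1 : ℕ) : ℚ)) ^ i.1
                else if i.1 < 96 then w r * (-2 * ((r.1 + 1 : ℕ) : ℚ)) ^ (i.1 - 48) * β i1
                else v r * (-2 * ((r.1 + 1 : ℕ) : ℚ)) ^ (i.1 - 96) * γ i2) = 1 := by
          intro i
          split_ifs
          · rw [padicNorm.mul, hw1, one_mul]
            exact h5 i
          · rw [padicNorm.mul, padicNorm.mul, hw1, one_mul,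
              Pool.Agent.H574R2.D3.H6_norm_pow p _ (hunit r), hβ1, one_mul]
          · rw [padicNorm.mul, padicNorm.mul, hv1, one_mul,
              Pool.Agent.H574R2.D3.H6_norm_pow p _ (hunit r), hγ1, one_mul]
        rw [padicNorm.mul, padicNorm.mul,
          Pool.Agent.H574R2.D3.H6_norm_prod p _ h5, Pool.Agent.H574R2.D3.H6_norm_prod p _ h6,
          hp1 p (by omega) hpp]
        norm_num
    intro h0
    apply hM0
    rw [hM, Pool.Agent.H574R2.D3.H6_det_scale, h0, mul_zero, mul_zero]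
  -- conclusion
  have hm : 12 * (2 * p) - 24 = 48 * h := by omega
  unfold Pool.Agent.H574R2.Q4.DD
  rw [hm]
  refine A2_MD_ne (AL (2 * p) α) (BL (2 * p) β) (BL (2 * p) γ) (48 * h) _ _ (H6_e h) ?_ Q P ?_ ?_ key
  · simp only [Fintype.card_prod, Fintype.card_fin]
  · intro a
    have ha := a.1.2
    have ha2 := a.2.2
    have := H6_P_natDegree p (a.2.1 + 1) 144 a.1.1 (by omega) (by omega) ha hodd
    rw [← hh] at this
    rw [hQ]
    refine this.trans_le ?_
    omega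
  · intro a
    have ha := a.1.2
    have ha2 := a.2.2
    have := H6_P_natDegree p (a.2.1 + 1) 48 a.1.1 (by omega) (by omega) ha hodd
    rw [← hh] at this
    rw [hP]
    exact this


/-- **non-vanishing**, uniform -/
theorem nonv : ∃ p0 : ℕ, ∀ p : ℕ, p0 ≤ p → p.Prime → ∀ (α β γ : ℕ → ℚ) (q : ℕ), UInt q α → UInt q β →
    UInt q γ → ¬ p ∣ q → ∀ i1 i2 : ℕ, (i1 = 3 ∨ i1 = 5 ∨ i1 = 7) → (i2 = 5 ∨ i2 = 7 ∨ i2 = 9) → i1 < i2 →
    (∀ i < i1, β i = 0) → padicNorm p (β i1) = 1 → (∀ i < i2, γ i = 0) → padicNorm p (γ i2) = 1 →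
    DD (2 * p) α β γ ≠ 0 := by
  have key := nonv_of (fun A B C m R S _ _ _ e hS Q P hQ hP h => A2_MD_ne A B C m R S e hS Q P hQ hP h)
    (fun hp α β hα hβ i0 hi0 hβ0 r hr1 hr2 => H3_diag hp α β hα hβ i0 hi0 hβ0 r hr1 hr2)
    (fun hp α β hα hβ i0 hi0 hβ0 r s l l' hr1 hr2 hs1 hs2 hrs hl hl' =>
      H4_offdiag hp α β hα hβ i0 hi0 hβ0 r s l l' hr1 hr2 hs1 hs2 hrs hl hl')
    (fun i1 i2 h1 h2 h12 => H5_local i1 i2 h1 h2 h12)
  have key2 : ∀ i1 i2 : ℕ, ∃ p0 : ℕ, ((i1 = 3 ∨ i1 = 5 ∨ i1 = 7) → (i2 = 5 ∨ i2 = 7 ∨ i2 = 9) → i1 < i2 →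
      ∀ p : ℕ, p0 ≤ p → p.Prime → ∀ (α β γ : ℕ → ℚ) (q : ℕ), UInt q α → UInt q β → UInt q γ → ¬ p ∣ q →
      (∀ i < i1, β i = 0) → padicNorm p (β i1) = 1 → (∀ i < i2, γ i = 0) → padicNorm p (γ i2) = 1 →
      DD (2 * p) α β γ ≠ 0) := by
    intro i1 i2
    by_cases h : (i1 = 3 ∨ i1 = 5 ∨ i1 = 7) ∧ (i2 = 5 ∨ i2 = 7 ∨ i2 = 9) ∧ i1 < i2
    · obtain ⟨p0, hp0⟩ := key i1 i2 h.1 h.2.1 h.2.2
      exact ⟨p0, fun _ _ _ => hp0⟩
    · exact ⟨0, fun a b c => absurd ⟨a, b, c⟩ h⟩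
  choose f hf using key2
  refine ⟨∑ i1 ∈ Finset.range 10, ∑ i2 ∈ Finset.range 10, f i1 i2, fun p hp hpp α β γ q hα hβ hγ hpq i1 i2 h1 h2 h12
    hβ0 hβ1 hγ0 hγ1 => hf i1 i2 h1 h2 h12 p ?_ hpp α β γ q hα hβ hγ hpq hβ0 hβ1 hγ0 hγ1⟩
  refine le_trans ?_ hp
  refine le_trans ?_ (Finset.single_le_sum (f := fun i1 => ∑ i2 ∈ Finset.range 10, f i1 i2)
    (fun _ _ => Nat.zero_le _) (Finset.mem_range.2 (by omega : i1 < 10)))
  exact Finset.single_le_sum (f := fun i2 => f i1 i2) (fun _ _ => Nat.zero_le _)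
    (Finset.mem_range.2 (by omega : i2 < 10))

end

end Pool.Agent.TH21.PD75
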