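import Pool.Agent.TH21.PD75.PU
import Pool.Agent.TH21.PD75.NV
import Pool.Agent.TH21.PD75.AR
import Pool.Agent.TH21.PD9.Fin

/-!
# The distance of `(1, ζ(3), ζ(5), ..., ζ(75))` to rational subspaces of dimension three
-/

open Polynomial Pool.Agent.H337R2 Pool.Agent.H574R2.Q4 Filter Topology

namespace Pool.Agent.TH21.PD75

noncomputable section

set_option autoImplicit false

/-- no subspace with small coefficients prime to `p` is very close to the zeta values -/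
theorem key : ∃ n0 : ℕ, ∀ p' : ℕ, n0 ≤ p' → p'.Prime → ∀ (q : ℕ) (α β γ : ℕ → ℚ) (θ₁ θ₂ : ℝ) (i1 i2 : ℕ),
    UInt q α → UInt q β → UInt q γ → ¬ p' ∣ q → (i1 = 3 ∨ i1 = 5 ∨ i1 = 7) → (i2 = 5 ∨ i2 = 7 ∨ i2 = 9) →
    i1 < i2 → (∀ i < i1, β i = 0) → padicNorm p' (β i1) = 1 → (∀ i < i2, γ i = 0) → padicNorm p' (γ i2) = 1 →
    36 * Real.log q + 12 * Real.log (1 + ∑ r ∈ Finset.Icc 1 76, |(β r : ℝ)|) +
      12 * Real.log (1 + ∑ r ∈ Finset.Icc 1 76, |(γ r : ℝ)|) ≤ 138 * p' →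
    ∃ i ∈ I37, Real.exp (-(702 * p')) < |(α i : ℝ) + θ₁ * (β i : ℝ) + θ₂ * (γ i : ℝ) - zr i| := by
  obtain ⟨p0, hH6⟩ := nonv
  obtain ⟨N, hN⟩ := eventually_atTop.1 ((P_unif.and arch).and (eventually_ge_atTop 1))
  refine ⟨N + p0, fun p' hn hnp q α β γ θ₁ θ₂ i1 i2 hα hβ hγ hnq hi1 hi2 hi12 hβ0 hβ1 hγ0 hγ1 hlogq => ?_⟩
  by_contra hcon
  push Not at hcon
  have hβ3 : ∀ i < 3, β i = 0 := fun i hi => hβ0 i (by omega)
  have hγ5 : ∀ i < 5, γ i = 0 := fun i hi => hγ0 i (by omega)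
  have hq : 0 < q := hα.1
  have hq0 : (0 : ℝ) < q := by exact_mod_cast hq
  have hlq : 0 ≤ Real.log q := Real.log_nonneg (by exact_mod_cast hq)
  obtain ⟨n, hnn⟩ : ∃ n : ℕ, n = 2 * p' := ⟨_, rfl⟩
  have hnr : (n : ℝ) = 2 * p' := by rw [hnn]; push_cast; ring
  obtain ⟨⟨h1, h2⟩, h4⟩ := hN n (by omega)
  have hne : DD n α β γ ≠ 0 := by
    rw [hnn]
    exact hH6 p' (by omega) hnp α β γ q hα hβ hγ hnq i1 i2 hi1 hi2 hi12 hβ0 hβ1 hγ0 hγ1
  have h1' := h1 q α β γ hα hβ hγ hβ3 hγ5 hne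
  have h2' := h2 α β γ θ₁ θ₂ (fun i hi => by
    refine (hcon i hi).trans (le_of_eq ?_)
    rw [hnr]
    congr 1
    ring) hne
  set z : ℚ := (q : ℚ) ^ (36 * n - 72) * DD n α β γ with hz
  have hqq : (q : ℚ) ≠ 0 := by exact_mod_cast hq.ne'
  have hz0 : z ≠ 0 := mul_ne_zero (pow_ne_zero _ hqq) hne
  have hS : ∀ p ∈ (Finset.range (72 * n + 1)).filter Nat.Prime, p.Prime := fun p hp =>
    (Finset.mem_filter.1 hp).2
  have hprod := Pool.Agent.H336R2.HD.A5_prod_formula z hz0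
    ((Finset.range (72 * n + 1)).filter Nat.Prime) hS
    (fun p => ((padicNorm p z : ℚ) : ℝ)) (fun p _ => le_rfl) (fun p hp hpS => by
      apply ZG.P_large q α β γ hα hβ hγ hβ3 hγ5 n h4 p hp
      by_contra hlt
      apply hpS
      rw [Finset.mem_filter, Finset.mem_range]
      exact ⟨by omega, hp⟩)
  have hpos : ∀ p ∈ (Finset.range (72 * n + 1)).filter Nat.Prime,
      ((padicNorm p z : ℚ) : ℝ) ≠ 0 := by
    intro p hp
    have : Fact p.Prime := ⟨hS p hp⟩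
    have h5 : padicNorm p z ≠ 0 := padicNorm.nonzero hz0
    exact_mod_cast h5
  have hDpos : 0 < |((DD n α β γ : ℚ) : ℝ)| := abs_pos.2 (by exact_mod_cast hne)
  have habs : |(z : ℝ)| = (q : ℝ) ^ (36 * n - 72) * |((DD n α β γ : ℚ) : ℝ)| := by
    rw [hz]
    push_cast
    rw [abs_mul, abs_of_pos (pow_pos hq0 _)]
  have hlog := Real.log_nonneg hprod
  rw [habs, Real.log_mul (mul_pos (pow_pos hq0 _) hDpos).ne' (Finset.prod_ne_zero_iff.2 hpos),
    Real.log_mul (pow_pos hq0 _).ne' hDpos.ne', Real.log_pow,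
    Real.log_prod (fun p hp => hpos p hp)] at hlog
  have hmq : ((36 * n - 72 : ℕ) : ℝ) * Real.log q ≤ 36 * n * Real.log q := by
    apply mul_le_mul_of_nonneg_right _ hlq
    have : 36 * n - 72 ≤ 36 * n := Nat.sub_le _ _
    exact_mod_cast this
  have hn1 : (1 : ℝ) ≤ n := by exact_mod_cast h4
  have hn2 : (1 : ℝ) ≤ (n : ℝ) ^ 2 := by nlinarith
  have hlogq' : 36 * Real.log q + 12 * Real.log (1 + ∑ r ∈ Finset.Icc 1 76, |(β r : ℝ)|) +
      12 * Real.log (1 + ∑ r ∈ Finset.Icc 1 76, |(γ r : ℝ)|) ≤ 69 * n := by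
    rw [hnr]
    linarith
  have h6 := mul_le_mul_of_nonneg_left hlogq' (by linarith : (0 : ℝ) ≤ n)
  have e6 : (n : ℝ) * (36 * Real.log q + 12 * Real.log (1 + ∑ r ∈ Finset.Icc 1 76, |(β r : ℝ)|) +
      12 * Real.log (1 + ∑ r ∈ Finset.Icc 1 76, |(γ r : ℝ)|)) =
      36 * n * Real.log q + 12 * n * Real.log (1 + ∑ r ∈ Finset.Icc 1 76, |(β r : ℝ)|) +
      12 * n * Real.log (1 + ∑ r ∈ Finset.Icc 1 76, |(γ r : ℝ)|) := by ring
  have e7 : (n : ℝ) * (69 * n) = 69 * (n : ℝ) ^ 2 := by ring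
  rw [e6, e7] at h6
  linarith

/-- the numbers `u i / q`, `i = 3, 5, ..., 75` -/
def frac (q : ℕ) (u : ℕ → ℤ) (i : ℕ) : ℚ := if i ∈ I37 then (u i : ℚ) / q else 0

lemma frac_UInt {q : ℕ} (hq : 0 < q) (u : ℕ → ℤ) : UInt q (frac q u) := by
  refine ⟨hq, fun i => ?_⟩
  unfold frac
  split_ifs
  · refine ⟨u i, ?_⟩
    have : (q : ℚ) ≠ 0 := by exact_mod_cast hq.ne'
    field_simp
  · exact ⟨0, by simp⟩

lemma frac_mem {q : ℕ} (u : ℕ → ℤ) {i : ℕ} (hi : i ∈ I37) : ((frac q u i : ℚ) : ℝ) = (u i : ℝ) / q := by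
  unfold frac
  rw [if_pos hi]
  push_cast
  rfl

lemma frac_sum {q : ℕ} (hq : 0 < q) (u : ℕ → ℤ) (H : ℝ) (hu : ∀ i ∈ I37, |(u i : ℝ)| ≤ H) :
    ∑ r ∈ Finset.Icc 1 76, |((frac q u r : ℚ) : ℝ)| ≤ 37 * H / q := by
  have hq0 : (0 : ℝ) < q := by exact_mod_cast hq
  have h1 : ∑ r ∈ Finset.Icc 1 76, |((frac q u r : ℚ) : ℝ)| = ∑ r ∈ I37, |((frac q u r : ℚ) : ℝ)| := by
    symm
    apply Finset.sum_subset
    · intro i hi
      rw [mem_I37] at hi
      rw [Finset.mem_Icc]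
      omega
    · intro i _ hi
      unfold frac
      rw [if_neg hi]
      simp
  rw [h1]
  have h2 : ∀ r ∈ I37, |((frac q u r : ℚ) : ℝ)| ≤ H / q := by
    intro r hr
    rw [frac_mem u hr, abs_div, abs_of_pos hq0]
    exact div_le_div_of_nonneg_right (hu r hr) hq0.le
  refine (Finset.sum_le_sum h2).trans ?_
  rw [Finset.sum_const]
  have hcard : I37.card = 37 := by decide
  rw [hcard, nsmul_eq_mul]
  apply le_of_eq
  push_cast
  ring

lemma log38 : Real.log 38 ≤ 4 := by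
  have h4 : Real.log 38 ≤ Real.log (Real.exp 4) := by
    apply Real.log_le_log (by norm_num)
    have h6 : Real.exp 4 = Real.exp 1 ^ 4 := by rw [← Real.exp_nat_mul]; norm_num
    have h7 := Real.exp_one_gt_d9
    rw [h6]
    calc (38 : ℝ) ≤ 2.7 ^ 4 := by norm_num
      _ ≤ Real.exp 1 ^ 4 := pow_le_pow_left₀ (by norm_num) (by linarith) 4
  rwa [Real.log_exp] at h4

lemma log75 : Real.log 75 ≤ 5 := by
  have h4 : Real.log 75 ≤ Real.log (Real.exp 5) := by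
    apply Real.log_le_log (by norm_num)
    have h6 : Real.exp 5 = Real.exp 1 ^ 5 := by rw [← Real.exp_nat_mul]; norm_num
    have h7 := Real.exp_one_gt_d9
    rw [h6]
    calc (75 : ℝ) ≤ 2.7 ^ 5 := by norm_num
      _ ≤ Real.exp 1 ^ 5 := pow_le_pow_left₀ (by norm_num) (by linarith) 5
  rwa [Real.log_exp] at h4

/-- the measure for large heights and a reduced basis -/
theorem meas_red : ∃ H0 : ℝ, 1 ≤ H0 ∧ ∀ H : ℝ, H0 ≤ H → ∀ (q : ℕ) (a b d : ℕ → ℤ) (θ₁ θ₂ : ℝ), 0 < q → (q : ℝ) ≤ H →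
    (∀ i ∈ I37, |(b i : ℝ)| ≤ H) → (∀ i ∈ I37, |(d i : ℝ)| ≤ 2 * H ^ 2) →
    ∀ i1 i2 : ℕ, (i1 = 3 ∨ i1 = 5 ∨ i1 = 7) → (i2 = 5 ∨ i2 = 7 ∨ i2 = 9) → i1 < i2 →
    b i1 ≠ 0 → (∀ i ∈ I37, i < i1 → b i = 0) → d i2 ≠ 0 → (∀ i ∈ I37, i < i2 → d i = 0) →
    ∃ i ∈ I37, 1 / H ^ 3100 ≤ |zr i - ((a i : ℝ) + θ₁ * (b i : ℝ) + θ₂ * (d i : ℝ)) / q| := by
  obtain ⟨n0, hkey⟩ := key
  have hpr := Pool.Agent.TH957.ZM.exists_prime_cls 1 le_rfl 1 isUnit_one (1251 / 100) (23 / 2) (by norm_num) (by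
    rw [Nat.totient_one]; norm_num)
  obtain ⟨X0, hX0⟩ := eventually_atTop.1 hpr
  refine ⟨Real.exp (10 * X0 + 10 * n0 + 1000), Real.one_le_exp (by positivity),
    fun H hH q a b d θ₁ θ₂ hq hqH hbH hdH i1 i2 hi1 hi2 hi12 hb1 hb0 hd1 hd0 => ?_⟩
  have hH0 : 0 < H := (Real.exp_pos _).trans_le hH
  have hX00 : (0 : ℝ) ≤ X0 := by positivity
  have hn00 : (0 : ℝ) ≤ n0 := by positivity
  set L := Real.log H with hL
  have hlH : (10 * X0 + 10 * n0 + 1000 : ℝ) ≤ L := by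
    rw [hL, ← Real.log_exp (10 * X0 + 10 * n0 + 1000 : ℝ)]
    exact Real.log_le_log (Real.exp_pos _) hH
  have hH1 : 1 ≤ H := by
    have : Real.exp 0 ≤ Real.exp (10 * X0 + 10 * n0 + 1000 : ℝ) := Real.exp_le_exp.2 (by positivity)
    rw [Real.exp_zero] at this
    linarith
  have hqr : (0 : ℝ) < q := by exact_mod_cast hq
  have h1m : i1 ∈ I37 := by
    rw [mem_I37]
    rcases hi1 with rfl | rfl | rfl <;> decide
  have h2m : i2 ∈ I37 := by
    rw [mem_I37]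
    rcases hi2 with rfl | rfl | rfl <;> decide
  -- the prime
  set X : ℕ := ⌈7 / 20 * L⌉₊ with hX
  have hX1 : 7 / 20 * L ≤ X := Nat.le_ceil _
  have hX2 : (X : ℝ) < 7 / 20 * L + 1 := Nat.ceil_lt_add_one (by linarith)
  have hXX : X0 ≤ X := by
    have : (X0 : ℝ) ≤ X := by linarith
    exact_mod_cast this
  have hXn : n0 ≤ X := by
    have : (n0 : ℝ) ≤ X := by linarith
    exact_mod_cast this
  set Q : ℕ := q * ((b i1).natAbs * (d i2).natAbs) with hQ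
  have hQ0 : 0 < Q := Nat.mul_pos hq (Nat.mul_pos (Int.natAbs_pos.2 hb1) (Int.natAbs_pos.2 hd1))
  have hQr : (Q : ℝ) = q * (|(b i1 : ℝ)| * |(d i2 : ℝ)|) := by
    rw [hQ]
    push_cast
    rw [Nat.cast_natAbs, Int.cast_abs, Nat.cast_natAbs, Int.cast_abs]
  have hQlog : Real.log Q ≤ 23 / 2 * X := by
    have h1 : Real.log Q ≤ Real.log (2 * H ^ 4) := by
      apply Real.log_le_log (by exact_mod_cast hQ0)
      rw [hQr]
      have h2 : |(b i1 : ℝ)| * |(d i2 : ℝ)| ≤ H * (2 * H ^ 2) :=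
        mul_le_mul (hbH i1 h1m) (hdH i2 h2m) (abs_nonneg _) hH0.le
      calc (q : ℝ) * (|(b i1 : ℝ)| * |(d i2 : ℝ)|) ≤ H * (H * (2 * H ^ 2)) :=
            mul_le_mul hqH h2 (by positivity) hH0.le
        _ = 2 * H ^ 4 := by ring
    rw [Real.log_mul (by norm_num) (by positivity), Real.log_pow] at h1
    push_cast at h1
    have h2 := Real.log_two_lt_d9
    linarith
  obtain ⟨p, hnp, -, hn2, hn3, hn4⟩ := hX0 X hXX Q hQ0 hQlog
  have hnX : (X : ℝ) ≤ p := by exact_mod_cast hn2.le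
  have hnq : ¬ p ∣ q := fun h => hn4 (h.trans (Dvd.intro _ rfl))
  have hnb : ¬ p ∣ (b i1).natAbs := fun h => hn4 ((h.trans (Dvd.intro _ rfl)).trans (Dvd.intro_left _ rfl))
  have hnd : ¬ p ∣ (d i2).natAbs := fun h => hn4 ((h.trans (Dvd.intro_left _ rfl)).trans (Dvd.intro_left _ rfl))
  have hFact : Fact p.Prime := ⟨hnp⟩
  -- the sizes
  have hSb := frac_sum hq b H hbH
  have hSd := frac_sum hq d (2 * H ^ 2) hdH
  have h1q : 1 ≤ H / q := (one_le_div hqr).2 hqH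
  have h1q2 : 1 ≤ H ^ 2 / q := by
    have : H / q ≤ H ^ 2 / q := by
      apply div_le_div_of_nonneg_right _ hqr.le
      nlinarith
    linarith
  have hlogs : 36 * Real.log q + 12 * Real.log (1 + ∑ r ∈ Finset.Icc 1 76, |((frac q b r : ℚ) : ℝ)|) +
      12 * Real.log (1 + ∑ r ∈ Finset.Icc 1 76, |((frac q d r : ℚ) : ℝ)|) ≤ 138 * p := by
    have h1 : Real.log (1 + ∑ r ∈ Finset.Icc 1 76, |((frac q b r : ℚ) : ℝ)|) ≤ Real.log (38 * H / q) := by
      apply Real.log_le_log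
      · have : 0 ≤ ∑ r ∈ Finset.Icc 1 76, |((frac q b r : ℚ) : ℝ)| := Finset.sum_nonneg fun _ _ => abs_nonneg _
        linarith
      · have h3 : 38 * H / q = H / q + 37 * H / q := by ring
        rw [h3]
        linarith
    have h2 : Real.log (1 + ∑ r ∈ Finset.Icc 1 76, |((frac q d r : ℚ) : ℝ)|) ≤ Real.log (75 * H ^ 2 / q) := by
      apply Real.log_le_log
      · have : 0 ≤ ∑ r ∈ Finset.Icc 1 76, |((frac q d r : ℚ) : ℝ)| := Finset.sum_nonneg fun _ _ => abs_nonneg _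
        linarith
      · have h3 : 75 * H ^ 2 / q = H ^ 2 / q + 37 * (2 * H ^ 2) / q := by ring
        rw [h3]
        linarith
    rw [Real.log_div (by positivity) hqr.ne', Real.log_mul (by norm_num) hH0.ne'] at h1
    rw [Real.log_div (by positivity) hqr.ne', Real.log_mul (by norm_num) (by positivity), Real.log_pow] at h2
    push_cast at h2
    have h3 : Real.log q ≤ L := Real.log_le_log hqr hqH
    have h4 := log38
    have h5 := log75
    linarith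
  -- the point
  have hβ0 : ∀ i < i1, frac q b i = 0 := by
    intro i hi
    unfold frac
    split_ifs with h
    · rw [hb0 i h hi]
      simp
    · rfl
  have hγ0 : ∀ i < i2, frac q d i = 0 := by
    intro i hi
    unfold frac
    split_ifs with h
    · rw [hd0 i h hi]
      simp
    · rfl
  have hnorm : ∀ (u : ℕ → ℤ) (i : ℕ), i ∈ I37 → ¬ p ∣ (u i).natAbs → padicNorm p (frac q u i) = 1 := by
    intro u i hi hnu
    unfold frac
    rw [if_pos hi, padicNorm.div]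
    have h1 : padicNorm p ((u i : ℤ) : ℚ) = 1 := by
      rw [padicNorm.int_eq_one_iff]
      intro h
      exact hnu (Int.natCast_dvd.1 h)
    have h2 : padicNorm p ((q : ℕ) : ℚ) = 1 := by
      rw [padicNorm.nat_eq_one_iff]
      exact hnq
    rw [h1, h2]
    norm_num
  obtain ⟨i, hi, hlt⟩ := hkey p (by omega) hnp q (frac q a) (frac q b) (frac q d) θ₁ θ₂ i1 i2 (frac_UInt hq a)
    (frac_UInt hq b) (frac_UInt hq d) hnq hi1 hi2 hi12 hβ0 (hnorm b i1 h1m hnb) hγ0 (hnorm d i2 h2m hnd) hlogs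
  refine ⟨i, hi, ?_⟩
  have e1 : |zr i - ((a i : ℝ) + θ₁ * (b i : ℝ) + θ₂ * (d i : ℝ)) / q| =
      |((frac q a i : ℚ) : ℝ) + θ₁ * ((frac q b i : ℚ) : ℝ) + θ₂ * ((frac q d i : ℚ) : ℝ) - zr i| := by
    rw [frac_mem a hi, frac_mem b hi, frac_mem d hi, abs_sub_comm]
    congr 1
    ring
  rw [e1]
  refine le_trans ?_ hlt.le
  have e2 : 1 / H ^ 3100 = Real.exp (-(3100 * L)) := by
    rw [hL, Real.exp_neg, one_div]
    congr 1
    rw [← Real.exp_log (pow_pos hH0 3100), Real.log_pow]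
    norm_num
  rw [e2]
  apply Real.exp_le_exp.2
  linarith

/-- the first index at which one of the two vectors does not vanish, and a reduced basis -/
lemma reduce (b d : ℕ → ℤ) (H : ℝ) (hH1 : 1 ≤ H) (hbH : ∀ i ∈ I37, |(b i : ℝ)| ≤ H) (hdH : ∀ i ∈ I37, |(d i : ℝ)| ≤ H)
    (j k : ℕ) (hj : j ∈ PD9.I4) (hk : k ∈ PD9.I4) (hjk : b j * d k ≠ b k * d j) :
    ∃ (u v : ℕ → ℤ) (i1 i2 : ℕ), (∀ i ∈ I37, |(u i : ℝ)| ≤ H) ∧ (∀ i ∈ I37, |(v i : ℝ)| ≤ 2 * H ^ 2) ∧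
      (i1 = 3 ∨ i1 = 5 ∨ i1 = 7) ∧ (i2 = 5 ∨ i2 = 7 ∨ i2 = 9) ∧ i1 < i2 ∧
      u i1 ≠ 0 ∧ (∀ i ∈ I37, i < i1 → u i = 0) ∧ v i2 ≠ 0 ∧ (∀ i ∈ I37, i < i2 → v i = 0) ∧
      ∀ θ₁ θ₂ : ℝ, ∃ η₁ η₂ : ℝ, ∀ i, θ₁ * (b i : ℝ) + θ₂ * (d i : ℝ) = η₁ * (u i : ℝ) + η₂ * (v i : ℝ) := by
  classical
  have hsmall : ∀ i ∈ I37, i ≤ 9 → i ∈ PD9.I4 := by
    intro i hi h9
    rw [mem_I37] at hi
    obtain ⟨⟨h3, -⟩, m, hm⟩ := hi
    have : i = 3 ∨ i = 5 ∨ i = 7 ∨ i = 9 := by omega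
    simp only [PD9.I4, Finset.mem_insert, Finset.mem_singleton]
    exact this
  have hI4 : ∀ i ∈ PD9.I4, i = 3 ∨ i = 5 ∨ i = 7 ∨ i = 9 := by
    intro i hi
    simp only [PD9.I4, Finset.mem_insert, Finset.mem_singleton] at hi
    exact hi
  -- the first index
  have hex1 : ∃ i, i ∈ PD9.I4 ∧ (b i ≠ 0 ∨ d i ≠ 0) := by
    by_contra hcon
    push Not at hcon
    have h1 := hcon j hj
    have h2 := hcon k hk
    apply hjk
    rw [h1.1, h2.1]
    ring
  set i1 := Nat.find hex1 with hi1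
  obtain ⟨h1m, h1n⟩ := Nat.find_spec hex1
  rw [← hi1] at h1m h1n
  have h1lt : ∀ i ∈ I37, i < i1 → b i = 0 ∧ d i = 0 := by
    intro i hi hlt
    have h9 : i1 ≤ 9 := by
      rcases hI4 i1 h1m with h | h | h | h <;> omega
    have := Nat.find_min hex1 hlt
    push Not at this
    exact this (hsmall i hi (by omega))
  set v : ℕ → ℤ := fun i => b i1 * d i - d i1 * b i with hv
  have hex2 : ∃ i, i ∈ PD9.I4 ∧ v i ≠ 0 := by
    by_contra hcon
    push Not at hcon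
    have h1 : b i1 * d j - d i1 * b j = 0 := hcon j hj
    have h2 : b i1 * d k - d i1 * b k = 0 := hcon k hk
    apply hjk
    by_cases hb : b i1 = 0
    · have hd : d i1 ≠ 0 := by
        rcases h1n with h | h
        · exact absurd hb h
        · exact h
      rw [hb] at h1 h2
      have h3 : d i1 * b j = 0 := by linarith
      have h4 : d i1 * b k = 0 := by linarith
      have h5 : b j = 0 := (mul_eq_zero.1 h3).resolve_left hd
      have h6 : b k = 0 := (mul_eq_zero.1 h4).resolve_left hd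
      rw [h5, h6]
      ring
    · apply mul_left_cancel₀ hb
      calc b i1 * (b j * d k) = b j * (b i1 * d k) := by ring
        _ = b j * (d i1 * b k) := by rw [sub_eq_zero.1 h2]
        _ = b k * (d i1 * b j) := by ring
        _ = b k * (b i1 * d j) := by rw [sub_eq_zero.1 h1]
        _ = b i1 * (b k * d j) := by ring
  set i2 := Nat.find hex2 with hi2
  obtain ⟨h2m, h2n⟩ := Nat.find_spec hex2
  rw [← hi2] at h2m h2n
  have h2lt : ∀ i ∈ I37, i < i2 → v i = 0 := by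
    intro i hi hlt
    have h9 : i2 ≤ 9 := by
      rcases hI4 i2 h2m with h | h | h | h <;> omega
    have := Nat.find_min hex2 hlt
    push Not at this
    exact this (hsmall i hi (by omega))
  have hsub : ∀ i ∈ PD9.I4, i ∈ I37 := by
    intro i hi
    rw [mem_I37]
    rcases hI4 i hi with rfl | rfl | rfl | rfl <;> decide
  have h12 : i1 < i2 := by
    by_contra hcon
    push Not at hcon
    rcases hcon.lt_or_eq with h | h
    · have h3 := h1lt i2 (hsub i2 h2m) h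
      apply h2n
      rw [hv]
      simp only
      rw [h3.1, h3.2]
      ring
    · apply h2n
      rw [hv, h]
      simp only
      ring
  have hi1' : i1 = 3 ∨ i1 = 5 ∨ i1 = 7 := by
    rcases hI4 i1 h1m with h | h | h | h
    · omega
    · omega
    · omega
    · rcases hI4 i2 h2m with h' | h' | h' | h' <;> omega
  have hi2' : i2 = 5 ∨ i2 = 7 ∨ i2 = 9 := by
    rcases hI4 i2 h2m with h | h | h | h
    · rcases hi1' with h' | h' | h' <;> omega
    · omega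
    · omega
    · omega
  have hvH : ∀ i ∈ I37, |(v i : ℝ)| ≤ 2 * H ^ 2 := by
    intro i hi
    rw [hv]
    push_cast
    have h1 := hbH i1 (hsub i1 h1m)
    have h2 := hdH i1 (hsub i1 h1m)
    have h3 := hbH i hi
    have h4 := hdH i hi
    have h5 : |(b i1 : ℝ) * (d i : ℝ)| ≤ H * H := by
      rw [abs_mul]
      exact mul_le_mul h1 h4 (abs_nonneg _) (by linarith)
    have h6 : |(d i1 : ℝ) * (b i : ℝ)| ≤ H * H := by
      rw [abs_mul]
      exact mul_le_mul h2 h3 (abs_nonneg _) (by linarith)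
    calc |(b i1 : ℝ) * (d i : ℝ) - (d i1 : ℝ) * (b i : ℝ)| ≤
          |(b i1 : ℝ) * (d i : ℝ)| + |(d i1 : ℝ) * (b i : ℝ)| := abs_sub _ _
      _ ≤ H * H + H * H := add_le_add h5 h6
      _ = 2 * H ^ 2 := by ring
  by_cases hb : b i1 = 0
  · have hd : d i1 ≠ 0 := by
      rcases h1n with h | h
      · exact absurd hb h
      · exact h
    refine ⟨d, v, i1, i2, hdH, hvH, hi1', hi2', h12, hd, fun i hi hlt => (h1lt i hi hlt).2, h2n, h2lt, ?_⟩
    intro θ₁ θ₂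
    refine ⟨θ₂, -θ₁ / (d i1 : ℝ), fun i => ?_⟩
    have hdr : (d i1 : ℝ) ≠ 0 := by exact_mod_cast hd
    rw [hv]
    push_cast
    rw [hb]
    push_cast
    field_simp
    ring
  · refine ⟨b, v, i1, i2, hbH, hvH, hi1', hi2', h12, hb, fun i hi hlt => (h1lt i hi hlt).1, h2n, h2lt, ?_⟩
    intro θ₁ θ₂
    have hbr : (b i1 : ℝ) ≠ 0 := by exact_mod_cast hb
    refine ⟨θ₁ + θ₂ * (d i1 : ℝ) / (b i1 : ℝ), θ₂ / (b i1 : ℝ), fun i => ?_⟩
    rw [hv]
    push_cast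
    field_simp
    ring

/-- **the distance to rational subspaces of dimension three** -/
theorem main : ∃ c : ℝ, 0 < c ∧ ∀ (q : ℕ) (a b d : ℕ → ℤ) (θ₁ θ₂ H : ℝ), 0 < q → (q : ℝ) ≤ H →
    (∀ i ∈ I37, |(b i : ℝ)| ≤ H) → (∀ i ∈ I37, |(d i : ℝ)| ≤ H) →
    ∃ i ∈ I37, c / H ^ 6180 ≤ |zr i - ((a i : ℝ) + θ₁ * (b i : ℝ) + θ₂ * (d i : ℝ)) / q| := by
  obtain ⟨H0, hH0, hlarge⟩ := meas_red
  obtain ⟨c9, hc9, h9⟩ := PD9.main
  have hsub : ∀ i ∈ PD9.I4, i ∈ I37 := by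
    intro i hi
    have hi' : i = 3 ∨ i = 5 ∨ i = 7 ∨ i = 9 := by
      simp only [PD9.I4, Finset.mem_insert, Finset.mem_singleton] at hi
      exact hi
    rw [mem_I37]
    rcases hi' with rfl | rfl | rfl | rfl <;> decide
  refine ⟨min c9 (1 / H0 ^ 3100), lt_min hc9 (by positivity), fun q a b d θ₁ θ₂ H hq hqH hbH hdH => ?_⟩
  have hqr : (0 : ℝ) < q := by exact_mod_cast hq
  have hq1 : (1 : ℝ) ≤ q := by exact_mod_cast hq
  have hH1 : 1 ≤ H := hq1.trans hqH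
  by_cases hdep : ∃ j ∈ PD9.I4, ∃ k ∈ PD9.I4, b j * d k ≠ b k * d j
  · -- independent vectors
    obtain ⟨j, hj, k, hk, hjk⟩ := hdep
    set H1 : ℝ := max H H0 with hH1d
    have hHH1 : H ≤ H1 := le_max_left _ _
    have hH01 : H0 ≤ H1 := le_max_right _ _
    obtain ⟨u, v, i1, i2, huH, hvH, hi1, hi2, h12, hu1, hu0, hv1, hv0, hη⟩ :=
      reduce b d H1 (hH1.trans hHH1) (fun i hi => (hbH i hi).trans hHH1) (fun i hi => (hdH i hi).trans hHH1)
        j k hj hk hjk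
    obtain ⟨η₁, η₂, hηi⟩ := hη θ₁ θ₂
    obtain ⟨i, hi, h⟩ := hlarge H1 hH01 q a u v η₁ η₂ hq (hqH.trans hHH1) huH hvH i1 i2 hi1 hi2 h12 hu1 hu0 hv1 hv0
    refine ⟨i, hi, ?_⟩
    have e1 : (a i : ℝ) + θ₁ * (b i : ℝ) + θ₂ * (d i : ℝ) = (a i : ℝ) + η₁ * (u i : ℝ) + η₂ * (v i : ℝ) := by
      have := hηi i
      linarith
    rw [e1]
    refine le_trans ?_ h
    rcases le_total H0 H with hc | hc
    · have e2 : H1 = H := max_eq_left hc
      rw [e2]
      calc min c9 (1 / H0 ^ 3100) / H ^ 6180 ≤ 1 / H ^ 6180 := by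
            apply div_le_div_of_nonneg_right _ (by positivity)
            refine (min_le_right _ _).trans ?_
            rw [div_le_one (by positivity)]
            exact one_le_pow₀ hH0
        _ ≤ 1 / H ^ 3100 := by
            apply div_le_div_of_nonneg_left (by norm_num) (by positivity)
            exact pow_le_pow_right₀ hH1 (by norm_num)
    · have e2 : H1 = H0 := max_eq_right hc
      rw [e2]
      calc min c9 (1 / H0 ^ 3100) / H ^ 6180 ≤ (1 / H0 ^ 3100) / H ^ 6180 :=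
            div_le_div_of_nonneg_right (min_le_right _ _) (by positivity)
        _ ≤ (1 / H0 ^ 3100) / 1 := by
            apply div_le_div_of_nonneg_left (by positivity) (by norm_num)
            exact one_le_pow₀ hH1
        _ = 1 / H0 ^ 3100 := by rw [div_one]
  · -- dependent vectors at `3, 5, 7, 9`
    push Not at hdep
    obtain ⟨w, η, hwH, hw⟩ : ∃ (w : ℕ → ℤ) (η : ℝ), (∀ i ∈ PD9.I4, |(w i : ℝ)| ≤ H) ∧
        ∀ i ∈ PD9.I4, θ₁ * (b i : ℝ) + θ₂ * (d i : ℝ) = η * (w i : ℝ) := by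
      by_cases hb : ∃ j ∈ PD9.I4, b j ≠ 0
      · obtain ⟨j, hj, hbj⟩ := hb
        have hbr : (b j : ℝ) ≠ 0 := by exact_mod_cast hbj
        refine ⟨b, θ₁ + θ₂ * ((d j : ℝ) / (b j : ℝ)), fun i hi => hbH i (hsub i hi), fun i hi => ?_⟩
        have h1 : (b j : ℝ) * (d i : ℝ) = (b i : ℝ) * (d j : ℝ) := by exact_mod_cast hdep j hj i hi
        field_simp
        linear_combination θ₂ * h1
      · push Not at hb
        refine ⟨d, θ₂, fun i hi => hdH i (hsub i hi), fun i hi => ?_⟩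
        rw [hb i hi]
        push_cast
        ring
    obtain ⟨i, hi, h⟩ := h9 q a w η H hq hqH hwH
    refine ⟨i, hsub i hi, ?_⟩
    have e1 : (a i : ℝ) + θ₁ * (b i : ℝ) + θ₂ * (d i : ℝ) = (a i : ℝ) + η * (w i : ℝ) := by
      have := hw i hi
      linarith
    rw [e1]
    refine le_trans ?_ h
    calc min c9 (1 / H0 ^ 3100) / H ^ 6180 ≤ c9 / H ^ 6180 :=
          div_le_div_of_nonneg_right (min_le_left _ _) (by positivity)
      _ ≤ c9 / H ^ (if w 3 = 0 ∧ w 5 = 0 ∧ w 7 = 0 then 6180 else 650) := by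
          apply div_le_div_of_nonneg_left hc9.le (by positivity)
          apply pow_le_pow_right₀ hH1
          split_ifs <;> norm_num

end

end Pool.Agent.TH21.PD75
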