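import Pool.Agent.H574R2.Q4.Z

/-!
# The p-adic part of `Pool/Agent/H574R2/Q4/`, uniformly in the numbers

`P_unif` is `P_main` of that development with the threshold for `n` independent of `q, α, β, γ`; the proof is
the one given there (the thresholds in the estimates do not depend on the numbers).
-/

open Polynomial Pool.Agent.H337R2 Pool.Agent.H574R2.Q4 Filter Topology

namespace Pool.Agent.TH21.PD75

noncomputable section

set_option autoImplicit false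

/-- the p-adic part, with a threshold which does not depend on the numbers -/
theorem P_unif_of (hmed : PMmed) (hcrude : PMcrude)
    (hE4 : ∃ K0 : ℝ, 0 ≤ K0 ∧ ∀ n : ℕ, 100 ≤ n → ∀ p : ℕ, p.Prime → n < 20 * p → 72 * n < p ^ 2 →
      ∀ (q : ℕ) (α β γ : ℕ → ℚ), UInt q α → UInt q β → UInt q γ → (∀ i < 3, β i = 0) → (∀ i < 5, γ i = 0) →
      ((padicNorm p ((q : ℚ) ^ (36 * n - 72) * DD n α β γ) : ℚ) : ℝ) ≤
        if p < 2 * n then (p : ℝ) ^ (EW n p + K0) else 1)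
    (hF2A : Tendsto (fun n : ℕ => (∑ p ∈ PS (1 / 20) 1 n, EA n p * Real.log p) / (n : ℝ) ^ 2) atTop
      (𝓝 ((LA : ℝ) - 507 * Real.log 20)))
    (hF2B : ∀ (τ : ℕ) (lo hi : ℚ), 1 ≤ lo → lo ≤ hi → hi ≤ 2 →
      Tendsto (fun n : ℕ => (∑ p ∈ PS lo hi n, EB τ n p * Real.log p) / (n : ℝ) ^ 2) atTop
      (𝓝 ((LB τ lo hi : ℚ) : ℝ)))
    (hF2U : Tendsto (fun n : ℕ => (∑ p ∈ PS (1 / 20) 72 n,
      (∑ j ∈ Finset.Icc 1 1440, (1 / 2 * tn (72 * n) j p + 3 / 2 * tn (24 * n) j p)) * Real.log p) / (n : ℝ) ^ 2)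
      atTop (𝓝 (LU : ℝ)))
    (hF3n : LA + LB 5625 1 (6 / 5) + LB 5700 (6 / 5) (3 / 2) + LB 5776 (3 / 2) 2 + LU ≤ 67912 / 10)
    (hF4 : ∀ ε : ℝ, 0 < ε → ∀ᶠ n : ℕ in atTop,
      36 * (n : ℝ) * (∑ p ∈ (Finset.range (n + 1)).filter (fun p : ℕ => p.Prime ∧ p ^ 2 ≤ 72 * n),
          200 * Real.log (72 * n + 1) +
        ∑ p ∈ (Finset.range (n + 1)).filter (fun p : ℕ => p.Prime ∧ 20 * p ≤ n), 76 * Real.log p) ≤
      (684 / 5 + ε) * (n : ℝ) ^ 2)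
    (hF5 : ∀ᶠ n : ℕ in atTop,
      ∑ p ∈ (Finset.range (n + 1)).filter (fun p : ℕ => p.Prime ∧ 20 * p ≤ n),
        (∑ i ∈ Finset.range (36 * n - 72), Real.log ((padicNorm p (((2 * i - 1).factorial : ℕ) : ℚ) : ℚ) : ℝ) +
         3 * ∑ i ∈ Finset.range (12 * n - 24), Real.log ((padicNorm p (((2 * i - 1).factorial : ℕ) : ℚ) : ℚ) : ℝ)) ≤
      - (∑ i ∈ Finset.range (36 * n - 72), Real.log ((2 * i - 1).factorial : ℝ) +
         3 * ∑ i ∈ Finset.range (12 * n - 24), Real.log ((2 * i - 1).factorial : ℝ)) +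
        ∑ p ∈ PS (1 / 20) 72 n,
          (∑ j ∈ Finset.Icc 1 1440, (1 / 2 * tn (72 * n) j p + 3 / 2 * tn (24 * n) j p)) * Real.log p)
    (hF6 : ∀ ε : ℝ, 0 < ε → ∀ᶠ n : ℕ in atTop,
      1728 * (n : ℝ) ^ 2 * Real.log n + (5184 * Real.log 2 + 3024 * Real.log 3 - 2592 - ε) * (n : ℝ) ^ 2 ≤
        ∑ i ∈ Finset.range (36 * n - 72), Real.log ((2 * i - 1).factorial : ℝ) +
         3 * ∑ i ∈ Finset.range (12 * n - 24), Real.log ((2 * i - 1).factorial : ℝ)) :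
    ∀ᶠ n : ℕ in atTop, ∀ (q : ℕ) (α β γ : ℕ → ℚ), UInt q α → UInt q β → UInt q γ → (∀ i < 3, β i = 0) →
    (∀ i < 5, γ i = 0) → DD n α β γ ≠ 0 →
    ∑ p ∈ (Finset.range (72 * n + 1)).filter Nat.Prime,
      Real.log ((padicNorm p ((q : ℚ) ^ (36 * n - 72) * DD n α β γ) : ℚ) : ℝ) ≤
    -(1728 * (n : ℝ) ^ 2 * Real.log n) + 1087 * (n : ℝ) ^ 2 := by
  classical
  obtain ⟨K0, hK0, hE4'⟩ := hE4
  obtain ⟨L1, hL1⟩ : ∃ L1 : ℝ, L1 = ((LB 5625 1 (6 / 5) : ℚ) : ℝ) := ⟨_, rfl⟩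
  obtain ⟨L2, hL2⟩ : ∃ L2 : ℝ, L2 = ((LB 5700 (6 / 5) (3 / 2) : ℚ) : ℝ) := ⟨_, rfl⟩
  obtain ⟨L3, hL3⟩ : ∃ L3 : ℝ, L3 = ((LB 5776 (3 / 2) 2 : ℚ) : ℝ) := ⟨_, rfl⟩
  have hF3 : ((LA : ℝ) + L1 + L2 + L3 + LU) ≤ 67912 / 10 := by
    have h := (Rat.cast_le (K := ℝ)).2 hF3n
    rw [Rat.cast_add, Rat.cast_add, Rat.cast_add, Rat.cast_add, ← hL1, ← hL2, ← hL3] at h
    refine h.trans (le_of_eq ?_)
    norm_num
  have hB1 : Tendsto (fun n : ℕ => (∑ p ∈ PS 1 (6 / 5) n, EB 5625 n p * Real.log p) / (n : ℝ) ^ 2) atTop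
      (𝓝 L1) := by
    have h := hF2B 5625 1 (6 / 5) le_rfl (by norm_num) (by norm_num)
    rw [← hL1] at h
    have e1 : ((1 : ℚ) : ℝ) = 1 := by norm_num
    have e2 : ((6 / 5 : ℚ) : ℝ) = 6 / 5 := by norm_num
    rw [e1, e2] at h
    exact h
  have hB2 : Tendsto (fun n : ℕ => (∑ p ∈ PS (6 / 5) (3 / 2) n, EB 5700 n p * Real.log p) / (n : ℝ) ^ 2)
      atTop (𝓝 L2) := by
    have h := hF2B 5700 (6 / 5) (3 / 2) (by norm_num) (by norm_num) (by norm_num)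
    rw [← hL2] at h
    have e1 : ((3 / 2 : ℚ) : ℝ) = 3 / 2 := by norm_num
    have e2 : ((6 / 5 : ℚ) : ℝ) = 6 / 5 := by norm_num
    rw [e1, e2] at h
    exact h
  have hB3 : Tendsto (fun n : ℕ => (∑ p ∈ PS (3 / 2) 2 n, EB 5776 n p * Real.log p) / (n : ℝ) ^ 2)
      atTop (𝓝 L3) := by
    have h := hF2B 5776 (3 / 2) 2 (by norm_num) (by norm_num) (by norm_num)
    rw [← hL3] at h
    have e1 : ((3 / 2 : ℚ) : ℝ) = 3 / 2 := by norm_num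
    have e2 : ((2 : ℚ) : ℝ) = 2 := by norm_num
    rw [e1, e2] at h
    exact h
  have hε : (0 : ℝ) < 1 / 200 := by norm_num
  have ev2 := PM_ev hF2A (1 / 200) hε
  have ev3 := PM_ev hB1 (1 / 200) hε
  have ev4 := PM_ev hB2 (1 / 200) hε
  have ev4' := PM_ev hB3 (1 / 200) hε
  have ev5 := PM_ev hF2U (1 / 200) hε
  have ev6 := hF4 (1 / 200) hε
  have ev8 := hF6 (1 / 200) hε
  have ev9 : ∀ᶠ n : ℕ in atTop, K0 * (Real.log 4 * 2) ≤ 1 / 200 * n := by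
    have := (tendsto_natCast_atTop_atTop (R := ℝ)).const_mul_atTop hε
    exact this.eventually_ge_atTop _
  filter_upwards [ev2, ev3, ev4, ev4', ev5, ev6, hF5, ev8, ev9, PM_nlogn (1 / 200) hε,
    eventually_ge_atTop 60000] with n g2 g3 g4 g4a g5 g6 g7 g8 g9 g10 hn q α β γ hα hβ hγ hβ3 hγ5 hD
  have hn0 : (0 : ℝ) < n := by exact_mod_cast (by omega : 0 < n)
  have hn1 : 1 ≤ n := by omega
  have hqq : (0 : ℚ) < q := by exact_mod_cast hα.1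
  have hz : (q : ℚ) ^ (36 * n - 72) * DD n α β γ ≠ 0 := mul_ne_zero (pow_pos hqq _).ne' hD
  rw [← Finset.sum_filter_add_sum_filter_not _ (fun p => 20 * p ≤ n)]
  have e1 : ((Finset.range (72 * n + 1)).filter Nat.Prime).filter (fun p => 20 * p ≤ n) =
      (Finset.range (n + 1)).filter (fun p : ℕ => p.Prime ∧ 20 * p ≤ n) := by
    ext p
    simp only [Finset.mem_filter, Finset.mem_range]
    constructor
    · rintro ⟨⟨h1, h2⟩, h3⟩; exact ⟨by omega, h2, h3⟩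
    · rintro ⟨h1, h2, h3⟩; exact ⟨⟨by omega, h2⟩, h3⟩
  rw [e1]
  have hsmall : ∑ p ∈ (Finset.range (n + 1)).filter (fun p : ℕ => p.Prime ∧ 20 * p ≤ n),
      Real.log ((padicNorm p ((q : ℚ) ^ (36 * n - 72) * DD n α β γ) : ℚ) : ℝ) ≤
      36 * (n : ℝ) * (∑ p ∈ (Finset.range (n + 1)).filter (fun p : ℕ => p.Prime ∧ p ^ 2 ≤ 72 * n),
        200 * Real.log (72 * n + 1) +
      ∑ p ∈ (Finset.range (n + 1)).filter (fun p : ℕ => p.Prime ∧ 20 * p ≤ n), 76 * Real.log p) +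
      ∑ p ∈ (Finset.range (n + 1)).filter (fun p : ℕ => p.Prime ∧ 20 * p ≤ n),
      (∑ i ∈ Finset.range (36 * n - 72), Real.log ((padicNorm p (((2 * i - 1).factorial : ℕ) : ℚ) : ℚ) : ℝ) +
       3 * ∑ i ∈ Finset.range (12 * n - 24), Real.log ((padicNorm p (((2 * i - 1).factorial : ℕ) : ℚ) : ℚ) : ℝ)) := by
    calc _ ≤ ∑ p ∈ (Finset.range (n + 1)).filter (fun p : ℕ => p.Prime ∧ 20 * p ≤ n),
          (36 * (n : ℝ) * ((if p ^ 2 ≤ 72 * n then 200 * Real.log (72 * n + 1) else 0) + 76 * Real.log p) +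
          (∑ i ∈ Finset.range (36 * n - 72), Real.log ((padicNorm p (((2 * i - 1).factorial : ℕ) : ℚ) : ℚ) : ℝ) +
       3 * ∑ i ∈ Finset.range (12 * n - 24), Real.log ((padicNorm p (((2 * i - 1).factorial : ℕ) : ℚ) : ℚ) : ℝ))) := by
          apply Finset.sum_le_sum
          intro p hp
          rw [Finset.mem_filter] at hp
          exact PM_small hmed hcrude n p hn1 hp.2.1 q α β γ hα hβ hγ hβ3 hγ5 hz
      _ ≤ _ := by
          rw [Finset.sum_add_distrib, ← Finset.mul_sum, Finset.sum_add_distrib]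
          apply add_le_add_left
          apply mul_le_mul_of_nonneg_left _ (by positivity)
          apply add_le_add_left
          rw [← Finset.sum_filter]
          apply Finset.sum_le_sum_of_subset_of_nonneg
          · intro p hp
            simp only [Finset.mem_filter, Finset.mem_range] at hp ⊢
            exact ⟨hp.1.1, hp.1.2.1, hp.2⟩
          · intro p _ _
            have : 0 ≤ Real.log (72 * (n : ℝ) + 1) := Real.log_nonneg (by linarith)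
            positivity
  have hlarge : ∑ p ∈ ((Finset.range (72 * n + 1)).filter Nat.Prime).filter (fun p => ¬ 20 * p ≤ n),
      Real.log ((padicNorm p ((q : ℚ) ^ (36 * n - 72) * DD n α β γ) : ℚ) : ℝ) ≤
      ∑ p ∈ PS (1 / 20) 1 n, EA n p * Real.log p + 1000000 * n * Real.log n +
      (∑ p ∈ PS 1 (6 / 5) n, EB 5625 n p * Real.log p +
      (∑ p ∈ PS (6 / 5) (3 / 2) n, EB 5700 n p * Real.log p +
      ∑ p ∈ PS (3 / 2) 2 n, EB 5776 n p * Real.log p)) + K0 * (Real.log 4 * (2 * n)) := by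
    refine le_trans ?_ (PM_EW_split n (by omega) K0 hK0)
    have h1 : ∑ p ∈ ((Finset.range (72 * n + 1)).filter Nat.Prime).filter (fun p => ¬ 20 * p ≤ n),
        Real.log ((padicNorm p ((q : ℚ) ^ (36 * n - 72) * DD n α β γ) : ℚ) : ℝ) ≤
        ∑ p ∈ ((Finset.range (72 * n + 1)).filter Nat.Prime).filter (fun p => ¬ 20 * p ≤ n),
        (if p < 2 * n then (EW n p + K0) * Real.log p else 0) := by
      apply Finset.sum_le_sum
      intro p hp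
      rw [Finset.mem_filter, Finset.mem_filter] at hp
      exact PM_log_large K0 hE4' n hn p hp.1.2 hp.2 q α β γ hα hβ hγ hβ3 hγ5 hz
    refine h1.trans (le_of_eq ?_)
    rw [← Finset.sum_filter]
    apply Finset.sum_congr _ fun _ _ => rfl
    ext p
    simp only [Finset.mem_filter, Finset.mem_range]
    constructor
    · rintro ⟨⟨⟨h1, h2⟩, h3⟩, h4⟩; exact ⟨⟨h4, h2⟩, h3⟩
    · rintro ⟨⟨h1, h2⟩, h3⟩; exact ⟨⟨⟨by omega, h2⟩, h3⟩, h1⟩
  have hfin : K0 * (Real.log 4 * (2 * n)) ≤ 1 / 200 * (n : ℝ) ^ 2 := by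
    have := mul_le_mul_of_nonneg_right g9 hn0.le
    nlinarith
  have hn2 : (0 : ℝ) < (n : ℝ) ^ 2 := by positivity
  have h20 : Real.log 20 = 2 * Real.log 2 + Real.log 5 := by
    rw [show (20 : ℝ) = 2 ^ 2 * 5 by norm_num, Real.log_mul (by norm_num) (by norm_num),
      Real.log_pow]
    push_cast; ring
  rw [h20] at g2
  have hl2 := Real.log_two_gt_d9
  have hl5 := PM_log5
  have hl3 := PM_log3
  have hconst : (684 / 5 + 2592 + ((LA : ℝ) + L1 + L2 + L3 + LU) - 6198 * Real.log 2 - 3024 * Real.log 3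
      - 507 * Real.log 5 + 10 / 200) ≤ 1087 := by
    linarith
  have htot : (684 / 5 + 2592 + ((LA : ℝ) + L1 + L2 + L3 + LU) - 6198 * Real.log 2 - 3024 * Real.log 3
      - 507 * Real.log 5 + 10 / 200) * (n : ℝ) ^ 2 ≤ 1087 * (n : ℝ) ^ 2 :=
    mul_le_mul_of_nonneg_right hconst hn2.le
  have g2' : ∑ p ∈ PS (1 / 20) 1 n, EA n p * Real.log p ≤
      (LA : ℝ) * (n : ℝ) ^ 2 - 1014 * Real.log 2 * (n : ℝ) ^ 2 - 507 * Real.log 5 * (n : ℝ) ^ 2 +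
        1 / 200 * (n : ℝ) ^ 2 := by
    refine g2.trans (le_of_eq ?_); ring
  have g3' : ∑ p ∈ PS 1 (6 / 5) n, EB 5625 n p * Real.log p ≤ L1 * (n : ℝ) ^ 2 + 1 / 200 * (n : ℝ) ^ 2 := by
    refine g3.trans (le_of_eq ?_); ring
  have g4' : ∑ p ∈ PS (6 / 5) (3 / 2) n, EB 5700 n p * Real.log p ≤
      L2 * (n : ℝ) ^ 2 + 1 / 200 * (n : ℝ) ^ 2 := by
    refine g4.trans (le_of_eq ?_); ring
  have g4a' : ∑ p ∈ PS (3 / 2) 2 n, EB 5776 n p * Real.log p ≤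
      L3 * (n : ℝ) ^ 2 + 1 / 200 * (n : ℝ) ^ 2 := by
    refine g4a.trans (le_of_eq ?_); ring
  have g5' : ∑ p ∈ PS (1 / 20) 72 n,
      (∑ j ∈ Finset.Icc 1 1440, (1 / 2 * tn (72 * n) j p + 3 / 2 * tn (24 * n) j p)) * Real.log p ≤
      (LU : ℝ) * (n : ℝ) ^ 2 + 1 / 200 * (n : ℝ) ^ 2 := by
    refine g5.trans (le_of_eq ?_); ring
  have g6' : 36 * (n : ℝ) * (∑ p ∈ (Finset.range (n + 1)).filter (fun p : ℕ => p.Prime ∧ p ^ 2 ≤ 72 * n),
          200 * Real.log (72 * n + 1) +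
        ∑ p ∈ (Finset.range (n + 1)).filter (fun p : ℕ => p.Prime ∧ 20 * p ≤ n), 76 * Real.log p) ≤
      684 / 5 * (n : ℝ) ^ 2 + 1 / 200 * (n : ℝ) ^ 2 := by
    refine g6.trans (le_of_eq ?_); ring
  have g8' : 1728 * (n : ℝ) ^ 2 * Real.log n + 5184 * Real.log 2 * (n : ℝ) ^ 2 +
      3024 * Real.log 3 * (n : ℝ) ^ 2 - 2592 * (n : ℝ) ^ 2 - 1 / 200 * (n : ℝ) ^ 2 ≤
        ∑ i ∈ Finset.range (36 * n - 72), Real.log ((2 * i - 1).factorial : ℝ) +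
         3 * ∑ i ∈ Finset.range (12 * n - 24), Real.log ((2 * i - 1).factorial : ℝ) := by
    refine le_trans (le_of_eq ?_) g8; ring
  have htot' : 684 / 5 * (n : ℝ) ^ 2 + 2592 * (n : ℝ) ^ 2 + (LA : ℝ) * (n : ℝ) ^ 2 + L1 * (n : ℝ) ^ 2 +
      L2 * (n : ℝ) ^ 2 + L3 * (n : ℝ) ^ 2 +
      (LU : ℝ) * (n : ℝ) ^ 2 - 6198 * Real.log 2 * (n : ℝ) ^ 2 - 3024 * Real.log 3 * (n : ℝ) ^ 2
      - 507 * Real.log 5 * (n : ℝ) ^ 2 + 10 / 200 * (n : ℝ) ^ 2 ≤ 1087 * (n : ℝ) ^ 2 := by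
    refine le_trans (le_of_eq ?_) htot; ring
  have hfinal := add_le_add hsmall hlarge
  refine hfinal.trans ?_
  clear hfinal hsmall hlarge hconst htot g2 g3 g4 g4a g5 g6 g8 hF4 hF6 hF2B hF2A hF2U hB1 hB2 hB3
  linarith


/-- **the p-adic part**, uniform in the numbers -/
theorem P_unif : ∀ᶠ n : ℕ in atTop, ∀ (q : ℕ) (α β γ : ℕ → ℚ), UInt q α → UInt q β → UInt q γ →
    (∀ i < 3, β i = 0) → (∀ i < 5, γ i = 0) → DD n α β γ ≠ 0 →
    ∑ p ∈ (Finset.range (72 * n + 1)).filter Nat.Prime,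
      Real.log ((padicNorm p ((q : ℚ) ^ (36 * n - 72) * DD n α β γ) : ℚ) : ℝ) ≤
    -(1728 * (n : ℝ) ^ 2 * Real.log n) + 1087 * (n : ℝ) ^ 2 := by
  refine P_unif_of ?_ ?_ ZG.E4_padic ZG.F2_A ZG.F2_B ZG.F2_U F3_numeric (fun ε hε => F4_small ε hε) F5_fact F6_superfac
  · intro n p _ hn hp q α β γ hα hβ hγ hβ3 hγ5 m hm
    exact D4_small_med_of (fun A B C m Q P P' P'' h1 h2 h3 h4 => A1_monic A B C m Q P P' P'' h1 h2 h3 h4)
      (fun h1 h2 q α h3 E W h4 A h5 h6 h7 h8 => C2_xa h1 h2 q α h3 E W h4 A h5 h6 h7 h8)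
      (fun h1 h2 q β h3 i0 h0 E W h4 A h5 h6 h7 h8 => C2_xb h1 h2 q β h3 i0 h0 E W h4 A h5 h6 h7 h8)
      (fun h1 ρ h2 h3 i j h4 h5 k => C4_CP_PB h1 ρ h2 h3 i j h4 h5 k) hn hp q α β γ hα hβ hγ hβ3 hγ5 m hm
  · intro n p _ hn q α β γ hα hβ hγ m hm
    exact D4_small_crude_of (fun A B C m Q P P' P'' h1 h2 h3 h4 => A1_monic A B C m Q P P' P'' h1 h2 h3 h4)
      (fun h1 q u h2 E A h3 h4 => C3_crude h1 q u h2 E A h3 h4)
      (fun h1 ρ h2 h3 i j h4 h5 k => C4_CP_PB h1 ρ h2 h3 i j h4 h5 k) hn q α β γ hα hβ hγ m hm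

end

end Pool.Agent.TH21.PD75
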